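import Mathlib

/-! Helper54: DENSITY WARING.  If A has positive lower density, then almost all n are in A + (4k k-th powers)
and all large n are in A + A + (4k k-th powers). -/

set_option autoImplicit false

namespace H54Waring

open Finset

/-- e(x) = exp(2 pi i x) -/
noncomputable def e (x : ℝ) : ℂ := Complex.exp (2 * Real.pi * Complex.I * (x : ℂ))

/-- distance to the nearest integer -/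
noncomputable def nd (x : ℝ) : ℝ := |x - round x|

/-- the modulus Q = 4 * product of the odd primes up to K -/
noncomputable def QQ (K : ℕ) : ℕ := 4 * ∏ p ∈ (range (K + 1)).filter (fun p => p.Prime ∧ p ≠ 2), p

/-- P(y) = ((rho + Q y)^k - rho^k)/(Q k) -/
def PP (k Q ρ y : ℕ) : ℕ := ((ρ + Q * y) ^ k - ρ ^ k) / (Q * k)

def S_GEO : Prop := ∀ (β γ : ℝ) (Y : ℕ),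
  ‖∑ y ∈ range Y, e (β * (y : ℝ) + γ)‖ * nd β ≤ 1 / 2

def S_VDC : Prop := ∀ (g : ℕ → ℝ) (Y : ℕ),
  ‖∑ y ∈ range Y, e (g y)‖ ^ 2 ≤
    (Y : ℝ) + 2 * ∑ h ∈ Ico 1 Y, ‖∑ y ∈ range (Y - h), e (g (y + h) - g y)‖

def S_V : Prop := ∀ (κ τ φ : ℝ) (Y : ℕ), 0 < κ → κ ≤ 1 → 0 ≤ τ → τ ≤ κ / 8 → 2 ≤ κ * Y →
  κ * Y ≤ (((Icc 1 Y).filter (fun h : ℕ => nd ((h : ℝ) * φ) ≤ τ)).card : ℝ) →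
  ∃ q : ℕ, 1 ≤ q ∧ (q : ℝ) ≤ 2 / κ ∧ nd ((q : ℝ) * φ) ≤ 32 * τ / (κ ^ 2 * Y)

def S_POLY : Prop := ∀ (k : ℕ) (g : Polynomial ℝ) (h : ℝ), g.natDegree ≤ k + 1 →
  (g.comp (Polynomial.X + Polynomial.C h) - g).natDegree ≤ k ∧
  (g.comp (Polynomial.X + Polynomial.C h) - g).coeff k = (k + 1 : ℝ) * h * g.coeff (k + 1)

def S_WEYL : Prop := ∀ k : ℕ, 1 ≤ k → ∀ η : ℝ, 0 < η → ∃ C : ℝ, 1 ≤ C ∧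
  ∀ g : Polynomial ℝ, g.natDegree ≤ k → ∀ Y : ℕ, 1 ≤ Y →
    η * Y ≤ ‖∑ y ∈ range Y, e (g.eval (y : ℝ))‖ →
    ∃ q : ℕ, 1 ≤ q ∧ (q : ℝ) ≤ C ∧ nd ((q : ℝ) * g.coeff k) ≤ C / (Y : ℝ) ^ k

/-- vanishing of complete sums (shift by b / p^(v+1)) -/
def S_CSA : Prop := ∀ (k Q ρ b p : ℕ) (a : ℤ), 1 ≤ k → 1 ≤ Q → 1 ≤ b → p.Prime → p ∣ Q → (p = 2 → 4 ∣ Q) →
  ¬ p ∣ ρ → IsCoprime a (b : ℤ) → p ^ (padicValNat p (Q * k) + 1) ∣ b →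
  ∑ y ∈ range b, e ((a : ℝ) * ((ρ : ℝ) + Q * y) ^ k / b) = 0

def S_CS : Prop := ∀ k : ℕ, 2 ≤ k → ∀ η : ℝ, 0 < η → ∃ K0 : ℕ, ∀ K : ℕ, K0 ≤ K → ∀ ρ : ℕ, Nat.Coprime ρ (QQ K) →
  ∀ (b : ℕ) (a : ℤ), 1 ≤ b → IsCoprime a (b : ℤ) → ¬ b ∣ QQ K * k →
    ‖∑ y ∈ range b, e ((a : ℝ) * ((ρ : ℝ) + (QQ K : ℝ) * y) ^ k / b)‖ < η * b

def S_MAJ : Prop := ∀ (k Q ρ b Y : ℕ) (a : ℤ) (β : ℝ), 1 ≤ k → 1 ≤ b →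
  ‖∑ y ∈ range Y, e (((a : ℝ) / b + β) * ((ρ : ℝ) + Q * y) ^ k)‖ ≤
    (‖∑ y ∈ range b, e ((a : ℝ) * ((ρ : ℝ) + Q * y) ^ k / b)‖ / b * Y + b) *
      (1 + 2 * Real.pi * |β| * ((ρ : ℝ) + Q * Y) ^ k)

def S_ANA : Prop := ∀ k : ℕ, 2 ≤ k → ∀ ε : ℝ, 0 < ε → ∃ K : ℕ, k ≤ K ∧ ∀ ρ : ℕ, Nat.Coprime ρ (QQ K) →
  ∃ (C : ℝ) (Y0 : ℕ), 0 < C ∧ ∀ Y : ℕ, Y0 ≤ Y → ∀ α : ℝ,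
    ‖∑ y ∈ range Y, e (α * ((ρ : ℝ) + (QQ K : ℝ) * y) ^ k)‖ ≤ ε * Y ∨
    ∃ a : ℤ, |α - (a : ℝ) / ((QQ K : ℝ) * k)| ≤ C / (Y : ℝ) ^ k

def S_DIV : Prop := ∀ (k Q : ℕ), 1 ≤ k → (∀ p : ℕ, p.Prime → p ≤ k → p ∣ Q) → ∀ ρ y : ℕ,
  Q * k ∣ (ρ + Q * y) ^ k - ρ ^ k

/-- size of P: for large Y, P is increasing and w(Y) Y <= 4 k P(Y) -/
def S_SIZE : Prop := ∀ (k Q ρ : ℕ), 2 ≤ k → 1 ≤ Q → (∀ y : ℕ, Q * k ∣ (ρ + Q * y) ^ k - ρ ^ k) →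
  (∀ y : ℕ, PP k Q ρ y < PP k Q ρ (y + 1)) ∧
  (∀ y : ℕ, PP k Q ρ (y + 1) - PP k Q ρ y ≤ PP k Q ρ (y + 2) - PP k Q ρ (y + 1)) ∧
  ∃ Y0 : ℕ, ∀ Y : ℕ, Y0 ≤ Y →
    ((PP k Q ρ (Y + 1) : ℝ) - PP k Q ρ Y) * Y ≤ 4 * k * PP k Q ρ Y ∧
    (PP k Q ρ (Y + 1) : ℝ) ≤ 2 * PP k Q ρ Y ∧
    (PP k Q ρ Y : ℝ) ≤ 2 * (Q : ℝ) ^ k * (Y : ℝ) ^ k

/-- generic comparison of the weighted sum with the interval, for a sequence P -/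
def S_CMP : Prop := ∀ (P : ℕ → ℕ) (Y : ℕ) (θ w B : ℝ), P 0 = 0 → (∀ y, P y < P (y + 1)) →
  (∀ y, P (y + 1) - P y ≤ P (y + 2) - P (y + 1)) → ((P (Y + 1) : ℝ) - P Y ≤ w) →
  (‖(∑ y ∈ range Y, ((P (y + 1) : ℂ) - P y) * e (θ * P y)) - ∑ h ∈ range (P Y), e (θ * h)‖
      ≤ 2 * Real.pi * |θ| * w * P Y) ∧
  ((∀ Y' : ℕ, Y' ≤ Y → ‖∑ y ∈ range Y', e (θ * P y)‖ ≤ B) →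
    ‖∑ y ∈ range Y, ((P (y + 1) : ℂ) - P y) * e (θ * P y)‖ ≤ 2 * w * B)

def S_SUP : Prop := ∀ k : ℕ, 2 ≤ k → ∀ ε : ℝ, 0 < ε → ∃ K : ℕ, k ≤ K ∧ ∀ ρ : ℕ, Nat.Coprime ρ (QQ K) →
  ∃ Y0 : ℕ, ∀ Y : ℕ, Y0 ≤ Y → ∀ θ : ℝ,
    ‖(∑ y ∈ range Y, ((PP k (QQ K) ρ (y + 1) : ℂ) - PP k (QQ K) ρ y) * e (θ * PP k (QQ K) ρ y))
       - ∑ h ∈ range (PP k (QQ K) ρ Y), e (θ * h)‖ ≤ ε * PP k (QQ K) ρ Y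

def S_L2 : Prop := ∀ (P : ℕ → ℕ) (Y : ℕ) (ε : ℝ), 0 ≤ ε → P 0 = 0 → (∀ y, P y < P (y + 1)) →
  (∀ θ : ℝ, ‖(∑ y ∈ range Y, ((P (y + 1) : ℂ) - P y) * e (θ * P y)) - ∑ h ∈ range (P Y), e (θ * h)‖
      ≤ ε * P Y) →
  ∀ E F : Finset ℤ, (∀ n ∈ E, ∀ a ∈ F, 0 ≤ n - a ∧ n - a < P Y ∧ ∀ y < Y, n - a ≠ P y) →
    (E.card : ℝ) * F.card ≤ ε ^ 2 * (P Y : ℝ) ^ 2

def S_LOCP : Prop := ∀ (k p j t : ℕ), 1 ≤ k → p.Prime → p ≠ 2 →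
  ∃ ρ : ℕ → ℕ, (∑ i ∈ range (4 * k), ρ i ^ k) ≡ t [MOD p ^ j] ∧ ρ 0 = 1

def S_LOC2 : Prop := ∀ (k j t : ℕ), 1 ≤ k → j ≤ padicValNat 2 k + 2 →
  ∃ ρ : ℕ → ℕ, (∑ i ∈ range (4 * k), ρ i ^ k) ≡ t [MOD 2 ^ j] ∧ ρ 0 = 1

def S_LOC : Prop := ∀ (k q t : ℕ), 1 ≤ k → 1 ≤ q → padicValNat 2 q ≤ padicValNat 2 k + 2 →
  ∃ ρ : ℕ → ℕ, (∑ i ∈ range (4 * k), ρ i ^ k) ≡ t [MOD q] ∧ ρ 0 ≡ 1 [MOD q]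

/-- positive lower density (constant δ) -/
def LD (A : Set ℕ) (δ : ℝ) : Prop := 0 < δ ∧ ∃ N0 : ℕ, ∀ N : ℕ, N0 ≤ N →
  δ * N ≤ (Nat.card {n : ℕ // n < N ∧ n ∈ A} : ℝ)

/-- n = a + (4k k-th powers) -/
def Rep (k : ℕ) (A : Set ℕ) (n : ℕ) : Prop := ∃ a ∈ A, ∃ x : ℕ → ℕ, n = a + ∑ i ∈ range (4 * k), x i ^ k

/-- core inequality in two residue classes; m = Q k -/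
def S_CORE : Prop := ∀ k : ℕ, 2 ≤ k → ∀ ε : ℝ, 0 < ε → ∃ m c0 N2 : ℕ, 1 ≤ m ∧ ∀ N : ℕ, N2 ≤ N → ∀ r s : ℕ,
  ∀ E F : Finset ℕ, (∀ n ∈ E, n % m = r % m ∧ n < N) → (∀ a ∈ F, a % m = s % m) →
    (∀ n ∈ E, ∀ a ∈ F, a + c0 ≤ n ∧ ¬ ∃ x : ℕ → ℕ, n = a + ∑ i ∈ range (4 * k), x i ^ k) →
    (E.card : ℝ) * F.card ≤ ε * ((N : ℝ) / m) ^ 2

def S_DENS : Prop := ∀ (k : ℕ) (A : Set ℕ) (δ : ℝ), 2 ≤ k → LD A δ → ∀ ε : ℝ, 0 < ε →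
  ∃ N1 : ℕ, ∀ N : ℕ, N1 ≤ N → (Nat.card {n : ℕ // n < N ∧ ¬ Rep k A n} : ℝ) ≤ ε * N

def S_MAIN : Prop := ∀ (k : ℕ) (A : Set ℕ) (δ : ℝ), 2 ≤ k → LD A δ →
  ∃ N1 : ℕ, ∀ n : ℕ, N1 ≤ n → ∃ a ∈ A, ∃ a' ∈ A, ∃ x : ℕ → ℕ, n = a + a' + ∑ i ∈ range (4 * k), x i ^ k

end H54Waring
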