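import Pool.Agent.H54Waring.Basic

set_option autoImplicit false

namespace H54Waring

open Finset

private lemma QQ_pos (K : ℕ) : 1 ≤ QQ K := by
  unfold QQ
  have : 0 < ∏ p ∈ (range (K + 1)).filter (fun p => p.Prime ∧ p ≠ 2), p := by
    apply Finset.prod_pos
    intro p hp
    simp only [mem_filter] at hp
    exact hp.2.1.pos
  omega

theorem t_ANA_b : S_WEYL → S_CS → S_MAJ → S_ANA := by
  intro hW hCS hM k hk ε hε
  obtain ⟨C1, hC1, hW1⟩ := hW k (by omega) ε hε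
  set B : ℝ := 1 + 2 * Real.pi * (2 ^ k * C1) with hB
  have hBpos : 0 < B := by have := Real.pi_pos; positivity
  have hη : 0 < ε / (2 * B) := by positivity
  obtain ⟨K0, hK0⟩ := hCS k hk (ε / (2 * B)) hη
  refine ⟨max K0 k, le_max_right _ _, ?_⟩
  intro ρ hρ
  set Q : ℕ := QQ (max K0 k) with hQ
  have hQ1 : 1 ≤ Q := QQ_pos _
  have hQR : (1 : ℝ) ≤ (Q : ℝ) := by exact_mod_cast hQ1
  have hQk : (1 : ℝ) ≤ (Q : ℝ) ^ k := one_le_pow₀ hQR
  refine ⟨C1, max (max ρ 1) (⌈2 * C1 * (Q : ℝ) ^ k * B / ε⌉₊), by linarith, ?_⟩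
  intro Y hY α
  have hYρ : ρ ≤ Y := le_trans (le_trans (le_max_left _ _) (le_max_left _ _)) hY
  have hY1 : 1 ≤ Y := le_trans (le_trans (le_max_right _ _) (le_max_left _ _)) hY
  have hYc : 2 * C1 * (Q : ℝ) ^ k * B / ε ≤ Y := by
    refine (Nat.le_ceil _).trans ?_
    exact_mod_cast le_trans (le_max_right _ _) hY
  have hYR : (1 : ℝ) ≤ (Y : ℝ) := by exact_mod_cast hY1
  have hYk : (0 : ℝ) < (Y : ℝ) ^ k := by positivity
  by_cases hcase : ‖∑ y ∈ range Y, e (α * ((ρ : ℝ) + (Q : ℝ) * y) ^ k)‖ ≤ ε * Y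
  · exact Or.inl hcase
  right
  push Not at hcase
  -- the polynomial
  set l : Polynomial ℝ := Polynomial.C (ρ : ℝ) + Polynomial.C (Q : ℝ) * Polynomial.X with hl
  have hldeg : l.natDegree ≤ 1 := by
    rw [hl]; compute_degree
  have hlc : l.coeff 1 = (Q : ℝ) := by
    rw [hl]; simp
  set g : Polynomial ℝ := Polynomial.C α * l ^ k with hg
  have hgdeg : g.natDegree ≤ k := by
    rw [hg]
    refine (Polynomial.natDegree_C_mul_le _ _).trans ?_
    refine (Polynomial.natDegree_pow_le).trans ?_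
    calc k * l.natDegree ≤ k * 1 := Nat.mul_le_mul_left _ hldeg
      _ = k := mul_one k
  have hgc : g.coeff k = α * (Q : ℝ) ^ k := by
    rw [hg, Polynomial.coeff_C_mul]
    have := Polynomial.coeff_pow_of_natDegree_le (p := l) (m := k) hldeg
    rw [mul_one] at this
    rw [this, hlc]
  have hgev : ∀ y : ℕ, g.eval (y : ℝ) = α * ((ρ : ℝ) + (Q : ℝ) * y) ^ k := by
    intro y; simp [hg, hl]
  have hbig : ε * Y ≤ ‖∑ y ∈ range Y, e (g.eval (y : ℝ))‖ := by
    simp only [hgev]; exact hcase.le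
  obtain ⟨q, hq1, hqC, hnd⟩ := hW1 g hgdeg Y hY1 hbig
  rw [hgc] at hnd
  set m : ℤ := round ((q : ℝ) * (α * (Q : ℝ) ^ k)) with hm
  have hnd' : |(q : ℝ) * (α * (Q : ℝ) ^ k) - m| ≤ C1 / (Y : ℝ) ^ k := hnd
  have hqR : (1 : ℝ) ≤ (q : ℝ) := by exact_mod_cast hq1
  set D : ℕ := q * Q ^ k with hD
  have hD1 : 1 ≤ D := by
    rw [hD]; exact Nat.one_le_iff_ne_zero.mpr (by positivity)
  have hDR : (D : ℝ) = (q : ℝ) * (Q : ℝ) ^ k := by rw [hD]; push_cast; ring
  have hDpos : (0 : ℝ) < D := by exact_mod_cast hD1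
  have hDQ : (Q : ℝ) ^ k ≤ D := by rw [hDR]; nlinarith
  have hDC : (D : ℝ) ≤ C1 * (Q : ℝ) ^ k := by
    rw [hDR]; exact mul_le_mul_of_nonneg_right hqC (by positivity)
  set r : ℚ := (m : ℚ) / (D : ℚ) with hr
  have hrR : ((r : ℚ) : ℝ) = (m : ℝ) / (D : ℝ) := by rw [hr]; push_cast; rfl
  have hrdiv : ((r : ℚ) : ℝ) = (r.num : ℝ) / (r.den : ℝ) := by
    exact_mod_cast congrArg (fun x : ℚ => (x : ℝ)) (Rat.num_div_den r).symm
  set b : ℕ := r.den with hb
  have hb1 : 1 ≤ b := r.pos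
  have hbR : (0 : ℝ) < b := by exact_mod_cast hb1
  have hbD : b ∣ D := by
    have h : (r.den : ℤ) ∣ (D : ℤ) := by
      have := Rat.den_dvd m (D : ℤ)
      rw [Rat.divInt_eq_div, Int.cast_natCast] at this
      exact this
    exact_mod_cast h
  have hbleD : (b : ℝ) ≤ D := by exact_mod_cast Nat.le_of_dvd hD1 hbD
  set β : ℝ := α - (r.num : ℝ) / (b : ℝ) with hβ
  have hβ1 : |β| ≤ C1 / (Y : ℝ) ^ k / D := by
    have : β = ((q : ℝ) * (α * (Q : ℝ) ^ k) - m) / D := by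
      rw [hβ, ← hrdiv, hrR, hDR]
      have : (q : ℝ) * (Q : ℝ) ^ k ≠ 0 := by positivity
      field_simp
    rw [this, abs_div, abs_of_pos hDpos]
    exact div_le_div_of_nonneg_right hnd' hDpos.le
  have hcop : IsCoprime r.num (b : ℤ) := by
    have := r.reduced
    rw [Int.isCoprime_iff_gcd_eq_one]
    exact this
  by_cases hdiv : b ∣ Q * k
  · obtain ⟨c, hc⟩ := hdiv
    refine ⟨r.num * (c : ℤ), ?_⟩
    have hQk0 : ((Q : ℝ) * k) = (b : ℝ) * c := by exact_mod_cast hc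
    have hc0 : (c : ℝ) ≠ 0 := by
      intro h0
      have : c = 0 := by exact_mod_cast h0
      rw [this, mul_zero] at hc
      have : 0 < Q * k := Nat.mul_pos hQ1 (by omega)
      omega
    have : ((r.num * (c : ℤ) : ℤ) : ℝ) / ((Q : ℝ) * k) = (r.num : ℝ) / b := by
      rw [hQk0]; push_cast
      field_simp
    rw [this]
    refine hβ1.trans ?_
    rw [div_div]
    apply div_le_div_of_nonneg_left (by linarith) hYk
    nlinarith
  · exfalso
    have hcs := hK0 (max K0 k) (le_max_left _ _) ρ hρ b r.num hb1 hcop hdiv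
    have hmaj := hM k Q ρ b Y r.num β (by omega) hb1
    have hαβ : (r.num : ℝ) / b + β = α := by rw [hβ]; ring
    rw [hαβ] at hmaj
    set S : ℝ := ‖∑ y ∈ range b, e ((r.num : ℝ) * ((ρ : ℝ) + (Q : ℝ) * y) ^ k / b)‖ with hS
    have hS' : S < ε / (2 * B) * b := hcs
    have hSb : S / b ≤ ε / (2 * B) := by
      rw [div_le_iff₀ hbR]; exact hS'.le
    have h1 : S / b * Y + b ≤ ε / (2 * B) * Y + C1 * (Q : ℝ) ^ k := by
      have : S / b * Y ≤ ε / (2 * B) * Y := mul_le_mul_of_nonneg_right hSb (by positivity)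
      linarith
    have h2 : ((ρ : ℝ) + Q * Y) ^ k ≤ 2 ^ k * (Q : ℝ) ^ k * (Y : ℝ) ^ k := by
      rw [← mul_pow, ← mul_pow]
      apply pow_le_pow_left₀ (by positivity)
      have : (ρ : ℝ) ≤ Y := by exact_mod_cast hYρ
      nlinarith
    have h3 : |β| * ((ρ : ℝ) + Q * Y) ^ k ≤ 2 ^ k * C1 := by
      calc |β| * ((ρ : ℝ) + Q * Y) ^ k ≤ (C1 / (Y : ℝ) ^ k / D) * (2 ^ k * (Q : ℝ) ^ k * (Y : ℝ) ^ k) := by
            apply mul_le_mul hβ1 h2 (by positivity)
            positivity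
        _ = 2 ^ k * C1 * ((Q : ℝ) ^ k / D) := by field_simp
        _ ≤ 2 ^ k * C1 * 1 := by
            apply mul_le_mul_of_nonneg_left _ (by positivity)
            rw [div_le_one hDpos]; exact hDQ
        _ = 2 ^ k * C1 := mul_one _
    have h4 : 1 + 2 * Real.pi * |β| * ((ρ : ℝ) + Q * Y) ^ k ≤ B := by
      rw [hB]
      have := Real.pi_pos
      nlinarith
    have h5 : (S / b * Y + b) * (1 + 2 * Real.pi * |β| * ((ρ : ℝ) + Q * Y) ^ k) ≤
        (ε / (2 * B) * Y + C1 * (Q : ℝ) ^ k) * B := by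
      apply mul_le_mul h1 h4
      · have := Real.pi_pos; positivity
      · positivity
    have h6 : (ε / (2 * B) * Y + C1 * (Q : ℝ) ^ k) * B = ε / 2 * Y + C1 * (Q : ℝ) ^ k * B := by
      field_simp
    have h7 : C1 * (Q : ℝ) ^ k * B ≤ ε / 2 * Y := by
      rw [div_le_iff₀ hε] at hYc
      nlinarith
    have h8 := hmaj.trans h5
    rw [h6] at h8
    have h9 : ‖∑ y ∈ range Y, e (α * ((ρ : ℝ) + (Q : ℝ) * y) ^ k)‖ ≤ ε * Y := by
      refine h8.trans ?_
      linarith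
    exact absurd h9 (not_le.mpr hcase)

end H54Waring
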