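import Pool.Agent.H54Waring.Basic

set_option autoImplicit false

namespace H54Waring

open Finset

theorem t_CMP : S_CMP := by
  intro P Y θ w B h0 hP hconv hw
  -- real gaps
  set g : ℕ → ℝ := fun y => (P (y + 1) : ℝ) - P y with hg
  have hg0 : ∀ y, 0 ≤ g y := by
    intro y
    have : (P y : ℝ) ≤ P (y + 1) := by exact_mod_cast (hP y).le
    simp only [hg]; linarith
  have hgs : ∀ y, g y ≤ g (y + 1) := by
    intro y
    have h1 := hconv y
    have h2 : P (y + 1) + P (y + 1) ≤ P (y + 2) + P y := by
      have := hP y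
      have := hP (y + 1)
      have e1 : y + 1 + 1 = y + 2 := rfl
      rw [e1] at this
      omega
    have h3 : (P (y + 1) : ℝ) + P (y + 1) ≤ P (y + 2) + P y := by exact_mod_cast h2
    simp only [hg]
    have e1 : y + 1 + 1 = y + 2 := rfl
    rw [e1]
    linarith
  have hmono : Monotone g := monotone_nat_of_le_succ hgs
  have hgw : ∀ y, y ≤ Y → g y ≤ w := fun y hy => (hmono hy).trans hw
  have hgc : ∀ y, ((g y : ℝ) : ℂ) = (P (y + 1) : ℂ) - P y := by
    intro y; simp only [hg]; push_cast; rfl
  constructor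
  · have key : ∀ Y' : ℕ, Y' ≤ Y →
        ‖(∑ y ∈ range Y', ((P (y + 1) : ℂ) - P y) * e (θ * P y)) -
          ∑ h ∈ range (P Y'), e (θ * h)‖ ≤ 2 * Real.pi * |θ| * w * P Y' := by
      intro Y'
      induction Y' with
      | zero => intro _; simp [h0]
      | succ n ih =>
        intro hn
        have ih1 := ih (by omega)
        obtain ⟨d, hd⟩ : ∃ d, P (n + 1) = P n + d := ⟨P (n + 1) - P n, by have := hP n; omega⟩
        have hdg : (d : ℝ) = g n := by
          simp only [hg]; rw [hd]; push_cast; ring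
        have hdw : (d : ℝ) ≤ w := by rw [hdg]; exact hgw n (by omega)
        have e1 : (∑ y ∈ range (n + 1), ((P (y + 1) : ℂ) - P y) * e (θ * P y)) -
            ∑ h ∈ range (P (n + 1)), e (θ * h) =
            ((∑ y ∈ range n, ((P (y + 1) : ℂ) - P y) * e (θ * P y)) -
              ∑ h ∈ range (P n), e (θ * h)) +
            ∑ i ∈ range d, (e (θ * P n) - e (θ * ((P n + i : ℕ) : ℝ))) := by
          rw [sum_range_succ, hd, sum_range_add, sum_sub_distrib, sum_const, card_range]
          push_cast
          rw [nsmul_eq_mul]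
          ring
        rw [e1]
        refine (norm_add_le _ _).trans ?_
        have h2 : ‖∑ i ∈ range d, (e (θ * P n) - e (θ * ((P n + i : ℕ) : ℝ)))‖ ≤
            ∑ i ∈ range d, 2 * Real.pi * |θ| * w := by
          refine norm_sum_le_of_le _ fun i hi => ?_
          have hi' : (i : ℝ) ≤ d := by
            have := mem_range.1 hi
            exact_mod_cast this.le
          refine (norm_e_sub_le _ _).trans ?_
          have e2 : θ * (P n : ℝ) - θ * ((P n + i : ℕ) : ℝ) = -(θ * i) := by push_cast; ring
          rw [e2, abs_neg, abs_mul, Nat.abs_cast]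
          have h3 : |θ| * (i : ℝ) ≤ |θ| * w :=
            mul_le_mul_of_nonneg_left (hi'.trans hdw) (abs_nonneg _)
          calc 2 * Real.pi * (|θ| * i) ≤ 2 * Real.pi * (|θ| * w) :=
                mul_le_mul_of_nonneg_left h3 (by positivity)
            _ = _ := by ring
        rw [sum_const, card_range, nsmul_eq_mul] at h2
        refine (add_le_add ih1 h2).trans (le_of_eq ?_)
        rw [hd]
        push_cast
        ring
    exact key Y le_rfl
  · intro hB
    have hB0 : 0 ≤ B := by simpa using hB 0 (Nat.zero_le _)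
    have key : ∀ Y' : ℕ, Y' ≤ Y →
        ‖(∑ y ∈ range Y', ((g y : ℝ) : ℂ) * e (θ * P y)) -
          ((g Y' : ℝ) : ℂ) * ∑ y ∈ range Y', e (θ * P y)‖ ≤ (g Y' - g 0) * B := by
      intro Y'
      induction Y' with
      | zero => intro _; simp
      | succ n ih =>
        intro hn
        have ih1 := ih (by omega)
        have e1 : (∑ y ∈ range (n + 1), ((g y : ℝ) : ℂ) * e (θ * P y)) -
            ((g (n + 1) : ℝ) : ℂ) * ∑ y ∈ range (n + 1), e (θ * P y) =
            ((∑ y ∈ range n, ((g y : ℝ) : ℂ) * e (θ * P y)) -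
              ((g n : ℝ) : ℂ) * ∑ y ∈ range n, e (θ * P y)) +
            ((g n - g (n + 1) : ℝ) : ℂ) * ∑ y ∈ range (n + 1), e (θ * P y) := by
          rw [sum_range_succ, sum_range_succ (fun y => e (θ * P y))]
          push_cast
          ring
        rw [e1]
        refine (norm_add_le _ _).trans ?_
        have h2 : ‖((g n - g (n + 1) : ℝ) : ℂ) * ∑ y ∈ range (n + 1), e (θ * P y)‖ ≤
            (g (n + 1) - g n) * B := by
          rw [norm_mul, Complex.norm_real, Real.norm_eq_abs, abs_sub_comm,
            abs_of_nonneg (by linarith [hgs n])]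
          exact mul_le_mul_of_nonneg_left (hB (n + 1) hn) (by linarith [hgs n])
        calc _ ≤ (g n - g 0) * B + (g (n + 1) - g n) * B := add_le_add ih1 h2
          _ = _ := by ring
    have h1 := key Y le_rfl
    have e2 : ∑ y ∈ range Y, ((P (y + 1) : ℂ) - P y) * e (θ * P y) =
        ((∑ y ∈ range Y, ((g y : ℝ) : ℂ) * e (θ * P y)) -
          ((g Y : ℝ) : ℂ) * ∑ y ∈ range Y, e (θ * P y)) +
        ((g Y : ℝ) : ℂ) * ∑ y ∈ range Y, e (θ * P y) := by
      rw [sub_add_cancel]
      exact sum_congr rfl fun y _ => by rw [hgc]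
    rw [e2]
    refine (norm_add_le _ _).trans ?_
    have h2 : ‖((g Y : ℝ) : ℂ) * ∑ y ∈ range Y, e (θ * P y)‖ ≤ g Y * B := by
      rw [norm_mul, Complex.norm_real, Real.norm_eq_abs, abs_of_nonneg (hg0 Y)]
      exact mul_le_mul_of_nonneg_left (hB Y le_rfl) (hg0 Y)
    have h3 := hg0 0
    have h4 := hgw Y le_rfl
    calc _ ≤ (g Y - g 0) * B + g Y * B := add_le_add h1 h2
      _ = 2 * (g Y * B) - g 0 * B := by ring
      _ ≤ 2 * (w * B) := by
          have h5 : 0 ≤ g 0 * B := mul_nonneg h3 hB0
          have h6 : g Y * B ≤ w * B := mul_le_mul_of_nonneg_right h4 hB0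
          linarith
      _ = _ := by ring

end H54Waring
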