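import Pool.Agent.H54Waring.Basic

set_option autoImplicit false

namespace H54Waring

open Finset

lemma core_val_QQ (K : ℕ) : padicValNat 2 (QQ K) = 2 := by
  haveI : Fact (Nat.Prime 2) := ⟨Nat.prime_two⟩
  unfold QQ
  have hodd : ¬ 2 ∣ ∏ p ∈ (range (K + 1)).filter (fun p => p.Prime ∧ p ≠ 2), p := by
    intro h
    rw [Prime.dvd_finset_prod_iff Nat.prime_two.prime] at h
    obtain ⟨p, hp, h2⟩ := h
    rw [mem_filter] at hp
    exact hp.2.2 ((Nat.prime_dvd_prime_iff_eq Nat.prime_two hp.2.1).1 h2).symm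
  have hne : ∏ p ∈ (range (K + 1)).filter (fun p => p.Prime ∧ p ≠ 2), p ≠ 0 := by
    intro h; exact hodd (h ▸ dvd_zero _)
  rw [padicValNat.mul (by norm_num) hne, padicValNat.eq_zero_of_not_dvd hodd]
  have : padicValNat 2 4 = 2 := by
    rw [show (4 : ℕ) = 2 ^ 2 by norm_num, padicValNat.prime_pow]
  omega

lemma core_QQ_pos (K : ℕ) : 1 ≤ QQ K := by
  unfold QQ
  have : 0 < ∏ p ∈ (range (K + 1)).filter (fun p => p.Prime ∧ p ≠ 2), p :=
    Finset.prod_pos (fun p hp => by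
      rw [mem_filter] at hp
      exact hp.2.1.pos)
  omega

lemma core_dvd_QQ (K p : ℕ) (hp : p.Prime) (hpK : p ≤ K) : p ∣ QQ K := by
  unfold QQ
  by_cases h : p = 2
  · subst h
    exact Dvd.dvd.mul_right (by norm_num) _
  · exact Dvd.dvd.mul_left (Finset.dvd_prod_of_mem (fun p => p)
      (by rw [mem_filter, mem_range]; exact ⟨by omega, hp, h⟩)) _

/-- the statement for one pair of residues -/
def CoreP (k m : ℕ) (ε : ℝ) (r s c0 N2 : ℕ) : Prop :=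
  ∀ N : ℕ, N2 ≤ N → 
  ∀ E F : Finset ℕ, (∀ n ∈ E, n % m = r ∧ n < N) → (∀ a ∈ F, a % m = s) →
    (∀ n ∈ E, ∀ a ∈ F, a + c0 ≤ n ∧ ¬ ∃ x : ℕ → ℕ, n = a + ∑ i ∈ range (4 * k), x i ^ k) →
    (E.card : ℝ) * F.card ≤ ε * ((N : ℝ) / m) ^ 2

lemma CoreP.mono {k m : ℕ} {ε : ℝ} {r s c0 N2 c0' N2' : ℕ} (h : CoreP k m ε r s c0 N2)
    (hc : c0 ≤ c0') (hN : N2 ≤ N2') : CoreP k m ε r s c0' N2' := by
  intro N hN' E F hE hF hEF
  exact h N (hN.trans hN') E F hE hF (fun n hn a ha => ⟨by have := (hEF n hn a ha).1; omega, (hEF n hn a ha).2⟩)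

theorem core_one (hL2 : S_L2) (k Q : ℕ) (hk : 2 ≤ k) (hQ : 1 ≤ Q) (ε : ℝ) (hε : 0 < ε) (r s : ℕ)
    (ρ : ℕ → ℕ) (hρ : (∑ i ∈ range (4 * k), ρ i ^ k) + s ≡ r [MOD Q * k])
    (hdvd : ∀ y : ℕ, Q * k ∣ (ρ 0 + Q * y) ^ k - (ρ 0) ^ k)
    (hmono : ∀ y : ℕ, PP k Q (ρ 0) y < PP k Q (ρ 0) (y + 1))
    (Y0 : ℕ) (hY0 : ∀ Y : ℕ, Y0 ≤ Y → (PP k Q (ρ 0) (Y + 1) : ℝ) ≤ 2 * PP k Q (ρ 0) Y)
    (Y1 : ℕ) (hY1 : ∀ Y : ℕ, Y1 ≤ Y → ∀ θ : ℝ,
    ‖(∑ y ∈ range Y, ((PP k Q (ρ 0) (y + 1) : ℂ) - PP k Q (ρ 0) y) * e (θ * PP k Q (ρ 0) y))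
       - ∑ h ∈ range (PP k Q (ρ 0) Y), e (θ * h)‖ ≤ (Real.sqrt ε / 2) * PP k Q (ρ 0) Y) :
    ∃ c0 N2 : ℕ, CoreP k (Q * k) ε r s c0 N2 := by
  set P := PP k Q (ρ 0) with hP
  set m := Q * k with hm
  have hmpos : 0 < m := by positivity
  have hP0 : P 0 = 0 := by simp [hP, PP]
  have hsm : StrictMono P := strictMono_nat_of_lt_succ hmono
  set c0 := ∑ i ∈ range (4 * k), ρ i ^ k with hc0
  set Ym := max Y0 Y1 + 1 with hYm
  refine ⟨c0, m * (P Ym + 1), ?_⟩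
  intro N hN E F hE hF hEF
  have hM : P Ym + 1 ≤ N / m := by
    rw [Nat.le_div_iff_mul_le hmpos, mul_comm]; exact hN
  have hex : ∃ Y, N / m < P Y := ⟨N / m + 1, lt_of_lt_of_le (Nat.lt_succ_self _) (hsm.id_le _)⟩
  classical
  set Y := Nat.find hex with hY
  have hYspec : N / m < P Y := Nat.find_spec hex
  have hYgt : Ym < Y := by
    by_contra h
    have := hsm.monotone (not_lt.1 h)
    omega
  have hYpred : P (Y - 1) ≤ N / m := by
    have := Nat.find_min hex (m := Y - 1) (by omega)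
    omega
  have hPY : (P Y : ℝ) ≤ 2 * ((N : ℝ) / m) := by
    have h1 := hY0 (Y - 1) (by omega)
    rw [show Y - 1 + 1 = Y by omega] at h1
    have h2 : ((P (Y - 1) : ℕ) : ℝ) ≤ ((N / m : ℕ) : ℝ) := by exact_mod_cast hYpred
    have h3 : ((N / m : ℕ) : ℝ) ≤ (N : ℝ) / m := Nat.cast_div_le
    linarith
  -- the integer d
  obtain ⟨d, hd⟩ : ∃ d : ℤ, (c0 : ℤ) = r - s + m * d := by
    have h1 : ((c0 + s : ℕ) : ℤ) ≡ ((r : ℕ) : ℤ) [ZMOD (m : ℕ)] := (Int.natCast_modEq_iff).2 hρ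
    have h2 := h1.symm.dvd
    obtain ⟨d, hd⟩ := h2
    refine ⟨d, ?_⟩
    push_cast at hd
    linarith
  set E' : Finset ℤ := E.image (fun n : ℕ => ((n / m : ℕ) : ℤ) - d) with hE'
  set F' : Finset ℤ := F.image (fun a : ℕ => ((a / m : ℕ) : ℤ)) with hF'
  have hcE : E'.card = E.card := by
    apply card_image_of_injOn
    intro n hn n' hn' h
    simp only at h
    have h1 : ((n / m : ℕ) : ℤ) = ((n' / m : ℕ) : ℤ) := by linarith
    have h2 : n / m = n' / m := by exact_mod_cast h1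
    rw [← Nat.div_add_mod n m, ← Nat.div_add_mod n' m, h2, (hE n hn).1, (hE n' hn').1]
  have hcF : F'.card = F.card := by
    apply card_image_of_injOn
    intro n hn n' hn' h
    simp only at h
    have h2 : n / m = n' / m := by exact_mod_cast h
    rw [← Nat.div_add_mod n m, ← Nat.div_add_mod n' m, h2, hF n hn, hF n' hn']
  have key := hL2 P Y (Real.sqrt ε / 2) (by positivity) hP0 hmono (hY1 Y (by omega)) E' F' ?_
  · rw [hcE, hcF] at key
    refine key.trans ?_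
    have h1 : (Real.sqrt ε / 2) ^ 2 = ε / 4 := by
      rw [div_pow, Real.sq_sqrt hε.le]; norm_num
    rw [h1]
    have h2 : (P Y : ℝ) ^ 2 ≤ (2 * ((N : ℝ) / m)) ^ 2 := pow_le_pow_left₀ (by positivity) hPY 2
    nlinarith
  · intro n' hn' a' ha'
    rw [hE', mem_image] at hn'
    rw [hF', mem_image] at ha'
    obtain ⟨n, hn, rfl⟩ := hn'
    obtain ⟨a, ha, rfl⟩ := ha'
    obtain ⟨hEF1, hEF2⟩ := hEF n hn a ha
    have hn1 : (n : ℤ) = m * ((n / m : ℕ) : ℤ) + r := by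
      have := Nat.div_add_mod n m
      rw [(hE n hn).1] at this
      exact_mod_cast this.symm
    have ha1 : (a : ℤ) = m * ((a / m : ℕ) : ℤ) + s := by
      have := Nat.div_add_mod a m
      rw [hF a ha] at this
      exact_mod_cast this.symm
    set u : ℤ := ((n / m : ℕ) : ℤ) - d - ((a / m : ℕ) : ℤ) with hu
    have hmu : (m : ℤ) * u = n - a - c0 := by
      rw [hu, hd, hn1, ha1]; ring
    have hmZ : (0 : ℤ) < m := by exact_mod_cast hmpos
    have hu0 : 0 ≤ u := by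
      have h1 : (0 : ℤ) ≤ m * u := by
        rw [hmu]
        have : ((a + c0 : ℕ) : ℤ) ≤ (n : ℤ) := by exact_mod_cast hEF1
        push_cast at this
        linarith
      exact nonneg_of_mul_nonneg_right h1 hmZ
    refine ⟨hu0, ?_, ?_⟩
    · obtain ⟨v, hv⟩ := Int.eq_ofNat_of_zero_le hu0
      have h1 : m * v ≤ N := by
        have h2 : (m : ℤ) * u ≤ N := by
          rw [hmu]
          have h3 : (n : ℤ) < N := by exact_mod_cast (hE n hn).2
          have h4 : (0 : ℤ) ≤ a := Int.natCast_nonneg a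
          have h5 : (0 : ℤ) ≤ c0 := Int.natCast_nonneg c0
          linarith
        rw [hv] at h2
        exact_mod_cast h2
      have h6 : v ≤ N / m := by
        rw [Nat.le_div_iff_mul_le hmpos, mul_comm]; exact h1
      rw [hv]
      exact_mod_cast lt_of_le_of_lt h6 hYspec
    · intro y _ huy
      apply hEF2
      refine ⟨fun i => if i = 0 then ρ 0 + Q * y else ρ i, ?_⟩
      have h1 : m * P y = (ρ 0 + Q * y) ^ k - (ρ 0) ^ k := by
        rw [hP, PP]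
        exact Nat.mul_div_cancel' (hdvd y)
      have h2 : (ρ 0) ^ k ≤ (ρ 0 + Q * y) ^ k := Nat.pow_le_pow_left (by omega) k
      obtain ⟨j, hj⟩ : ∃ j, 4 * k = j + 1 := ⟨4 * k - 1, by omega⟩
      have h3 : c0 = ∑ i ∈ range j, ρ (i + 1) ^ k + ρ 0 ^ k := by
        rw [hc0, hj, sum_range_succ']
      rw [hj, sum_range_succ']
      simp only [Nat.add_eq_zero_iff, one_ne_zero, and_false, if_false, if_true]
      have h4 : (n : ℤ) = a + c0 + m * P y := by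
        rw [← huy, hmu]; ring
      have h5 : n = a + c0 + m * P y := by exact_mod_cast h4
      rw [h5, h1, h3]
      omega

theorem t_CORE : S_SUP → S_L2 → S_LOC → S_DIV → S_SIZE → S_CORE := by
  intro hSUP hL2 hLOC hDIV hSIZE k hk ε hε
  obtain ⟨K, hkK, hK⟩ := hSUP k hk (Real.sqrt ε / 2) (by positivity)
  have hQ1 := core_QQ_pos K
  have hmpos : 0 < QQ K * k := by positivity
  have hone : ∀ r s : ℕ, ∃ c0 N2 : ℕ, CoreP k (QQ K * k) ε r s c0 N2 := by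
    intro r s
    have hval : padicValNat 2 (QQ K * k) ≤ padicValNat 2 k + 2 := by
      haveI : Fact (Nat.Prime 2) := ⟨Nat.prime_two⟩
      rw [padicValNat.mul (by omega) (by omega), core_val_QQ]
      omega
    obtain ⟨ρ, hρ, hρ0⟩ := hLOC k (QQ K * k) (r + (QQ K * k - 1) * s) (by omega) (by omega) hval
    have hcop : Nat.Coprime (ρ 0) (QQ K) := by
      have h1 : Nat.gcd (ρ 0) (QQ K * k) = Nat.gcd 1 (QQ K * k) := hρ0.gcd_eq
      rw [Nat.gcd_one_left] at h1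
      exact Nat.Coprime.coprime_dvd_right (Dvd.intro _ rfl) h1
    have hd := hDIV k (QQ K) (by omega) (fun p hp hpk => core_dvd_QQ K p hp (by omega)) (ρ 0)
    obtain ⟨hs1, -, Y0, hs3⟩ := hSIZE k (QQ K) (ρ 0) hk hQ1 hd
    obtain ⟨Y1, hY1⟩ := hK (ρ 0) hcop
    refine core_one hL2 k (QQ K) hk hQ1 ε hε r s ρ ?_ hd hs1 Y0 (fun Y hY => (hs3 Y hY).2.1) Y1 hY1
    have h2 : (∑ i ∈ range (4 * k), ρ i ^ k) + s ≡ r + (QQ K * k - 1) * s + s [MOD QQ K * k] :=
      hρ.add_right s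
    refine h2.trans ?_
    have h3 : r + (QQ K * k - 1) * s + s = r + QQ K * k * s := by
      obtain ⟨j, hj⟩ : ∃ j, QQ K * k = j + 1 := ⟨QQ K * k - 1, by omega⟩
      rw [hj, Nat.add_sub_cancel]; ring
    rw [h3]
    exact (Nat.modEq_iff_dvd' (by omega)).2 (by
      rw [Nat.add_sub_cancel_left]; exact Dvd.intro _ rfl) |>.symm
  choose f g hfg using hone
  set S := (range (QQ K * k)) ×ˢ (range (QQ K * k)) with hS
  refine ⟨QQ K * k, S.sup (fun z => f z.1 z.2), S.sup (fun z => g z.1 z.2), by omega, ?_⟩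
  intro N hN r s E F hE hF hEF
  have hmem : ((r % (QQ K * k), s % (QQ K * k)) : ℕ × ℕ) ∈ S := by
    rw [hS, mem_product, mem_range, mem_range]
    exact ⟨Nat.mod_lt _ hmpos, Nat.mod_lt _ hmpos⟩
  have hf := Finset.le_sup (f := fun z : ℕ × ℕ => f z.1 z.2) hmem
  have hg := Finset.le_sup (f := fun z : ℕ × ℕ => g z.1 z.2) hmem
  exact (hfg (r % (QQ K * k)) (s % (QQ K * k))).mono hf hg N hN E F hE hF hEF

end H54Waring
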