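
import Pool.Agent.H54Waring.Basic

set_option autoImplicit false

namespace H54Waring

open Finset

private lemma CS_QQ_pos (K : ℕ) : 0 < QQ K := by
  unfold QQ
  apply Nat.mul_pos (by norm_num)
  apply Finset.prod_pos
  intro p hp
  exact (Finset.mem_filter.1 hp).2.1.pos

private lemma CS_four_dvd (K : ℕ) : 4 ∣ QQ K := Dvd.intro _ rfl

private lemma CS_dvd_QQ (K p : ℕ) (hp : p.Prime) (hpK : p ≤ K) : p ∣ QQ K := by
  by_cases h2 : p = 2
  · subst h2
    exact Dvd.dvd.trans (by norm_num) (CS_four_dvd K)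
  · unfold QQ
    apply Dvd.dvd.mul_left
    apply Finset.dvd_prod_of_mem (fun p => p)
    rw [Finset.mem_filter, Finset.mem_range]
    exact ⟨by omega, hp, h2⟩

private lemma CS_not_dvd_QQ (K p : ℕ) (hK : 2 ≤ K) (hp : p.Prime) (hpK : K < p) : ¬ p ∣ QQ K := by
  intro h
  unfold QQ at h
  rcases (Nat.Prime.dvd_mul hp).1 h with h | h
  · have h4 : p ∣ 2 ^ 2 := by simpa using h
    have := hp.dvd_of_dvd_pow h4
    have := Nat.le_of_dvd (by norm_num) this
    omega
  · rw [Prime.dvd_finsetProd_iff hp.prime] at h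
    obtain ⟨r, hr, hpr⟩ := h
    rw [Finset.mem_filter, Finset.mem_range] at hr
    have := Nat.le_of_dvd hr.2.1.pos hpr
    omega

theorem t_CS : S_WEYL → S_CSA → S_CS := by
  intro hW hA k hk η hη
  obtain ⟨C, hC1, hC⟩ := hW k (by omega) η hη
  refine ⟨max k ⌈C⌉₊ + 2, ?_⟩
  intro K hK ρ hρ b a hb hab hnd
  have hkK : k + 2 ≤ K := by
    have := le_max_left k ⌈C⌉₊
    omega
  have hCK : C + 2 ≤ (K : ℝ) := by
    have h1 := le_max_right k ⌈C⌉₊
    have h2 : ⌈C⌉₊ + 2 ≤ K := by omega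
    have h3 : C ≤ (⌈C⌉₊ : ℝ) := Nat.le_ceil C
    have h4 : ((⌈C⌉₊ + 2 : ℕ) : ℝ) ≤ (K : ℝ) := by exact_mod_cast h2
    push_cast at h4
    linarith
  have hQ0 := CS_QQ_pos K
  have hQk : QQ K * k ≠ 0 := by positivity
  have hb0 : b ≠ 0 := by omega
  have hbR : (0 : ℝ) < b := by exact_mod_cast hb
  have hex : ∃ p : ℕ, p.Prime ∧ (QQ K * k).factorization p < b.factorization p := by
    by_contra hcon
    push Not at hcon
    exact hnd ((Nat.factorization_prime_le_iff_dvd hb0 hQk).1 hcon)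
  obtain ⟨p, hp, hpv⟩ := hex
  have hpb' : p ^ ((QQ K * k).factorization p + 1) ∣ b := by
    rw [hp.pow_dvd_iff_le_factorization hb0]
    exact hpv
  have hpb : p ∣ b := Dvd.dvd.trans (dvd_pow_self p (by omega)) hpb'
  have hple : p ≤ b := Nat.le_of_dvd (by omega) hpb
  by_cases hpK : p ≤ K
  · have h0 := hA k (QQ K) ρ b p a (by omega) hQ0 hb hp (CS_dvd_QQ K p hp hpK)
      (fun _ => CS_four_dvd K) ?_ hab ?_
    · rw [h0, norm_zero]
      positivity
    · intro hpρ
      have := Nat.dvd_gcd hpρ (CS_dvd_QQ K p hp hpK)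
      rw [hρ] at this
      exact hp.one_lt.ne' (Nat.dvd_one.1 this)
    · rwa [← Nat.factorization_def _ hp]
  · push Not at hpK
    by_contra hcon
    push Not at hcon
    set g : Polynomial ℝ := Polynomial.C ((a : ℝ) / b) *
      (Polynomial.C (QQ K : ℝ) * Polynomial.X + Polynomial.C (ρ : ℝ)) ^ k with hg
    have hdeg1 : (Polynomial.C (QQ K : ℝ) * Polynomial.X + Polynomial.C (ρ : ℝ)).natDegree ≤ 1 :=
      Polynomial.natDegree_linear_le
    have hdeg : g.natDegree ≤ k := by
      refine (Polynomial.natDegree_C_mul_le _ _).trans ?_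
      refine (Polynomial.natDegree_pow_le).trans ?_
      calc k * _ ≤ k * 1 := Nat.mul_le_mul_left k hdeg1
        _ = k := mul_one k
    have hcoeff : g.coeff k = (a : ℝ) / b * (QQ K : ℝ) ^ k := by
      rw [hg, Polynomial.coeff_C_mul]
      congr 1
      have := Polynomial.coeff_pow_of_natDegree_le hdeg1 (m := k)
      rw [mul_one] at this
      rw [this]
      simp
    have heval : ∀ y : ℕ, g.eval (y : ℝ) = (a : ℝ) * ((ρ : ℝ) + (QQ K : ℝ) * y) ^ k / b := by
      intro y
      rw [hg]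
      simp only [Polynomial.eval_mul, Polynomial.eval_C, Polynomial.eval_pow, Polynomial.eval_add,
        Polynomial.eval_X]
      ring
    obtain ⟨q, hq1, hqC, hq⟩ := hC g hdeg b hb (by simpa only [heval] using hcon)
    rw [hcoeff] at hq
    have hbK : (K : ℝ) < b := by
      have : K < b := by omega
      exact_mod_cast this
    have hlt : C / (b : ℝ) ^ k < 1 / b := by
      have h1 : (b : ℝ) ^ 2 ≤ (b : ℝ) ^ k := pow_le_pow_right₀ (by exact_mod_cast hb) hk
      have h2 : C / (b : ℝ) ^ k ≤ C / (b : ℝ) ^ 2 :=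
        div_le_div_of_nonneg_left (by linarith) (by positivity) h1
      refine h2.trans_lt ?_
      rw [div_lt_div_iff₀ (by positivity) hbR]
      nlinarith
    unfold nd at hq
    set x : ℝ := (q : ℝ) * ((a : ℝ) / b * (QQ K : ℝ) ^ k) with hx
    set n : ℤ := round x with hn
    have h3 : |x - n| < 1 / b := hq.trans_lt hlt
    have h4 : |((q : ℤ) * a * (QQ K : ℤ) ^ k - n * b : ℤ)| < 1 := by
      have h5 : (((q : ℤ) * a * (QQ K : ℤ) ^ k - n * b : ℤ) : ℝ) = (x - n) * b := by
        rw [hx]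
        push_cast
        field_simp
      have h6 : |(x - n) * b| < 1 := by
        rw [abs_mul, abs_of_pos hbR]
        rwa [lt_div_iff₀ hbR] at h3
      rw [← h5] at h6
      have h7 : ((|((q : ℤ) * a * (QQ K : ℤ) ^ k - n * b : ℤ)| : ℤ) : ℝ) < 1 := by
        rw [Int.cast_abs]
        exact h6
      exact_mod_cast h7
    have h8 : (q : ℤ) * a * (QQ K : ℤ) ^ k - n * b = 0 := Int.abs_lt_one_iff.1 h4
    have h9 : (b : ℤ) ∣ a * ((q : ℤ) * (QQ K : ℤ) ^ k) := ⟨n, by linarith⟩
    have h10 : (b : ℤ) ∣ (q : ℤ) * (QQ K : ℤ) ^ k := hab.symm.dvd_of_dvd_mul_left h9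
    have h11 : b ∣ q * QQ K ^ k := by exact_mod_cast h10
    rcases (Nat.Prime.dvd_mul hp).1 (hpb.trans h11) with h | h
    · have h12 := Nat.le_of_dvd (by omega) h
      have h13 : (K : ℝ) < q := by
        have : K < q := by omega
        exact_mod_cast this
      linarith
    · exact CS_not_dvd_QQ K p (by omega) hp hpK (hp.dvd_of_dvd_pow h)

end H54Waring
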