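import Pool.Agent.H54Waring.Basic

namespace H54Waring

theorem DIV_aux (k Q : ℕ) (h : ∀ p : ℕ, p.Prime → p ≤ k → p ∣ Q) (i : ℕ) (hi : i + 1 ≤ k) :
    i + 1 ∣ Q ^ i := by
  rw [Nat.dvd_iff_prime_pow_dvd_dvd]
  intro p j hp hj
  have h1 : p ^ j ≤ i + 1 := Nat.le_of_dvd (by omega) hj
  have h2 : j < p ^ j := Nat.lt_pow_self hp.one_lt
  rcases Nat.eq_zero_or_pos j with rfl | hj0
  · simp
  · have h3 : p ∣ i + 1 := (dvd_pow_self p hj0.ne').trans hj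
    have h4 : p ≤ i + 1 := Nat.le_of_dvd (by omega) h3
    have h5 : p ∣ Q := h p hp (h4.trans hi)
    exact (pow_dvd_pow p (by omega : j ≤ i)).trans (pow_dvd_pow_of_dvd h5 i)

theorem DIV_choose (k Q : ℕ) (h : ∀ p : ℕ, p.Prime → p ≤ k → p ∣ Q) (i : ℕ) (hi : i + 1 ≤ k) :
    Q * k ∣ k.choose (i + 1) * Q ^ (i + 1) := by
  obtain ⟨z, hz⟩ := DIV_aux k Q h i hi
  obtain ⟨k', rfl⟩ : ∃ k', k = k' + 1 := ⟨k - 1, by omega⟩
  have h1 := Nat.add_one_mul_choose_eq k' i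
  refine ⟨k'.choose i * z, ?_⟩
  rw [pow_succ, hz]
  calc (k' + 1).choose (i + 1) * ((i + 1) * z * Q) =
      ((k' + 1).choose (i + 1) * (i + 1)) * (z * Q) := by ring
    _ = ((k' + 1) * k'.choose i) * (z * Q) := by rw [← h1]
    _ = Q * (k' + 1) * (k'.choose i * z) := by ring

theorem t_DIV : S_DIV := by
  intro k Q hk h ρ y
  have h1 : (ρ + Q * y) ^ k = (∑ m ∈ Finset.range k,
      (Q * y) ^ (m + 1) * ρ ^ (k - (m + 1)) * k.choose (m + 1)) + ρ ^ k := by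
    rw [add_comm ρ, add_pow, Finset.sum_range_succ']
    simp
  rw [h1, Nat.add_sub_cancel]
  refine Finset.dvd_sum fun m hm => ?_
  have hm' : m + 1 ≤ k := by
    have := Finset.mem_range.1 hm
    omega
  have h2 := DIV_choose k Q h m hm'
  have h3 : (Q * y) ^ (m + 1) * ρ ^ (k - (m + 1)) * k.choose (m + 1) =
      (k.choose (m + 1) * Q ^ (m + 1)) * (y ^ (m + 1) * ρ ^ (k - (m + 1))) := by
    rw [mul_pow]; ring
  rw [h3]
  exact h2.mul_right _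

end H54Waring
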