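import Pool.Agent.H54Waring.Basic

set_option autoImplicit false

namespace H54Waring

open Finset

theorem geo_add (x y : ℝ) : e (x + y) = e x * e y := by
  unfold e
  rw [← Complex.exp_add]
  congr 1
  push_cast
  ring

theorem geo_norm (x : ℝ) : ‖e x‖ = 1 := by
  unfold e
  have h : (2 * Real.pi * Complex.I * x : ℂ) = ((2 * Real.pi * x : ℝ) : ℂ) * Complex.I := by
    push_cast
    ring
  rw [h, Complex.norm_exp_ofReal_mul_I]

theorem geo_int (n : ℤ) : e (n : ℝ) = 1 := by
  unfold e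
  have h : (2 * Real.pi * Complex.I * ((n : ℝ) : ℂ) : ℂ) = (n : ℂ) * (2 * Real.pi * Complex.I) := by
    push_cast
    ring
  rw [h, Complex.exp_int_mul_two_pi_mul_I]

theorem geo_sub_one (β : ℝ) : 4 * nd β ≤ ‖e β - 1‖ := by
  set x : ℝ := β - round β with hx
  have h1 : e β = e x := by
    have h2 : e β = e (x + ((round β : ℤ) : ℝ)) := by
      congr 1
      rw [hx]
      ring
    rw [h2, geo_add, geo_int, mul_one]
  have h3 : e x = Complex.exp (Complex.I * ((2 * Real.pi * x : ℝ) : ℂ)) := by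
    unfold e
    congr 1
    push_cast
    ring
  rw [h1, h3, Complex.norm_exp_I_mul_ofReal_sub_one]
  have h4 : 2 * Real.pi * x / 2 = Real.pi * x := by ring
  rw [h4, Real.norm_eq_abs, abs_mul, abs_of_pos (by norm_num : (0 : ℝ) < 2)]
  have hx2 : |x| ≤ 1 / 2 := by
    rw [hx]
    exact abs_sub_round β
  have h5 : |Real.pi * x| ≤ Real.pi / 2 := by
    rw [abs_mul, abs_of_pos Real.pi_pos]
    nlinarith [Real.pi_pos]
  have h6 := Real.mul_abs_le_abs_sin h5
  have h7 : 2 / Real.pi * |Real.pi * x| = 2 * |x| := by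
    rw [abs_mul, abs_of_pos Real.pi_pos]
    field_simp
  rw [h7] at h6
  show 4 * |β - round β| ≤ _
  rw [← hx]
  linarith

theorem geo_tel (β γ : ℝ) (Y : ℕ) :
    (e β - 1) * ∑ y ∈ range Y, e (β * y + γ) = e (β * Y + γ) - e γ := by
  induction Y with
  | zero =>
    rw [range_zero, sum_empty, mul_zero]
    have h : β * ((0 : ℕ) : ℝ) + γ = γ := by push_cast; ring
    rw [h, sub_self]
  | succ n ih =>
    rw [sum_range_succ, mul_add, ih]
    have h : β * ((n + 1 : ℕ) : ℝ) + γ = β + (β * n + γ) := by push_cast; ring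
    rw [h, geo_add β]
    ring

theorem t_GEO : S_GEO := by
  intro β γ Y
  have h1 := geo_tel β γ Y
  have h2 : ‖(e β - 1) * ∑ y ∈ range Y, e (β * y + γ)‖ ≤ 2 := by
    rw [h1]
    refine (norm_sub_le _ _).trans ?_
    rw [geo_norm, geo_norm]
    norm_num
  rw [norm_mul] at h2
  have h3 := geo_sub_one β
  have h4 := mul_le_mul_of_nonneg_right h3 (norm_nonneg (∑ y ∈ range Y, e (β * y + γ)))
  linarith

end H54Waring
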