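import Pool.Agent.H54Waring.Basic

/-! Task L2: sets without differences of the form `P y`. -/

set_option autoImplicit false

namespace H54Waring

open Finset

theorem l2_e_one (x : ℝ) (h : e x = 1) : ∃ n : ℤ, x = n := by
  unfold e at h
  rw [Complex.exp_eq_one_iff] at h
  obtain ⟨n, hn⟩ := h
  refine ⟨n, ?_⟩
  have hpi : (2 * (Real.pi : ℂ) * Complex.I) ≠ 0 := Complex.two_pi_I_ne_zero
  have h2 : (2 * (Real.pi : ℂ) * Complex.I) * (x : ℂ) = (2 * (Real.pi : ℂ) * Complex.I) * (n : ℂ) := by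
    rw [hn]; ring
  have h3 := mul_left_cancel₀ hpi h2
  exact_mod_cast h3

theorem l2_e_pow (x : ℝ) (j : ℕ) : e ((j : ℝ) * x) = e x ^ j := by
  unfold e
  rw [← Complex.exp_nat_mul]
  congr 1
  push_cast
  ring

theorem l2_orth (L : ℕ) (hL : 0 < L) (h : ℤ) (hh : |h| < L) :
    ∑ j ∈ range L, e ((j : ℝ) / L * (h : ℝ)) = if h = 0 then (L : ℂ) else 0 := by
  have hL' : (0 : ℝ) < L := by exact_mod_cast hL
  split_ifs with h0
  · subst h0
    simp [e_zero]
  · have h1 : ∀ j : ℕ, e ((j : ℝ) / L * (h : ℝ)) = e ((h : ℝ) / L) ^ j := by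
      intro j
      rw [← l2_e_pow]
      congr 1
      ring
    simp only [h1]
    have h2 : e ((h : ℝ) / L) ≠ 1 := by
      intro h3
      obtain ⟨n, hn⟩ := l2_e_one _ h3
      have h4 : (h : ℝ) = n * L := by
        rw [← hn]; field_simp
      have h5 : h = n * L := by exact_mod_cast h4
      have h6 : n ≠ 0 := by
        rintro rfl
        apply h0
        rw [h5]; ring
      have h7 : (1 : ℤ) ≤ |n| := Int.one_le_abs h6
      have h8 : |h| = |n| * L := by
        rw [h5, abs_mul, Nat.abs_cast]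
      have h9 : (0 : ℤ) < L := by exact_mod_cast hL
      nlinarith
    have h3 := mul_geom_sum (e ((h : ℝ) / L)) L
    have h4 : e ((h : ℝ) / L) ^ L = 1 := by
      rw [← l2_e_pow]
      have : (L : ℝ) * ((h : ℝ) / L) = (h : ℝ) := by field_simp
      rw [this, e_int]
    rw [h4, sub_self] at h3
    rcases mul_eq_zero.1 h3 with h5 | h5
    · exact absurd (sub_eq_zero.1 h5) h2
    · exact h5

theorem l2_mul_conj (x y : ℝ) : e x * (starRingEnd ℂ) (e y) = e (x - y) := (e_sub x y).symm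

theorem l2_pars (L : ℕ) (hL : 0 < L) (E : Finset ℤ) (hE : ∀ n ∈ E, ∀ n' ∈ E, |n - n'| < L) :
    ∑ j ∈ range L, ‖∑ n ∈ E, e ((j : ℝ) / L * (n : ℝ))‖ ^ 2 = L * E.card := by
  have h1 : ((∑ j ∈ range L, ‖∑ n ∈ E, e ((j : ℝ) / L * (n : ℝ))‖ ^ 2 : ℝ) : ℂ) =
      ((L * E.card : ℝ) : ℂ) := by
    push_cast
    calc ∑ j ∈ range L, ((‖∑ n ∈ E, e ((j : ℝ) / L * (n : ℝ))‖ : ℝ) : ℂ) ^ 2
        = ∑ j ∈ range L, ∑ n ∈ E, ∑ n' ∈ E, e ((j : ℝ) / L * ((n - n' : ℤ) : ℝ)) := by
          refine Finset.sum_congr rfl fun j _ => ?_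
          rw [← Complex.mul_conj', map_sum, Finset.sum_mul_sum]
          refine Finset.sum_congr rfl fun n _ => Finset.sum_congr rfl fun n' _ => ?_
          rw [l2_mul_conj]
          congr 1
          push_cast
          ring
      _ = ∑ n ∈ E, ∑ n' ∈ E, ∑ j ∈ range L, e ((j : ℝ) / L * ((n - n' : ℤ) : ℝ)) := by
          rw [Finset.sum_comm]
          refine Finset.sum_congr rfl fun n _ => ?_
          rw [Finset.sum_comm]
      _ = ∑ n ∈ E, ∑ n' ∈ E, (if n = n' then (L : ℂ) else 0) := by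
          refine Finset.sum_congr rfl fun n hn => Finset.sum_congr rfl fun n' hn' => ?_
          rw [l2_orth L hL _ (hE n hn n' hn')]
          simp only [sub_eq_zero]
      _ = ∑ n ∈ E, (L : ℂ) := by
          refine Finset.sum_congr rfl fun n hn => ?_
          rw [Finset.sum_ite_eq, if_pos hn]
      _ = (L : ℂ) * E.card := by
          rw [Finset.sum_const, nsmul_eq_mul, mul_comm]
  exact_mod_cast h1

theorem l2_inner (P : ℕ → ℕ) (Y : ℕ) (w : ℕ → ℂ) (hP : ∀ y < Y, P y < P Y) (m : ℤ) (h0 : 0 ≤ m)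
    (h1 : m < P Y) (h2 : ∀ y < Y, m ≠ P y) :
    ∑ j ∈ range (P Y), ((∑ y ∈ range Y, w y * e ((j : ℝ) / (P Y : ℕ) * (P y : ℝ))) -
      ∑ h ∈ range (P Y), e ((j : ℝ) / (P Y : ℕ) * (h : ℝ))) *
        (starRingEnd ℂ) (e ((j : ℝ) / (P Y : ℕ) * (m : ℝ))) = - ((P Y : ℕ) : ℂ) := by
  have hL : 0 < P Y := by
    have : (0 : ℤ) < P Y := lt_of_le_of_lt h0 h1
    exact_mod_cast this
  have e1 : ∀ (j : ℕ) (p : ℕ), e ((j : ℝ) / (P Y : ℕ) * (p : ℝ)) *
      (starRingEnd ℂ) (e ((j : ℝ) / (P Y : ℕ) * (m : ℝ))) =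
        e ((j : ℝ) / (P Y : ℕ) * (((p : ℤ) - m : ℤ) : ℝ)) := by
    intro j p
    rw [l2_mul_conj]
    congr 1
    push_cast
    ring
  calc ∑ j ∈ range (P Y), ((∑ y ∈ range Y, w y * e ((j : ℝ) / (P Y : ℕ) * (P y : ℝ))) -
      ∑ h ∈ range (P Y), e ((j : ℝ) / (P Y : ℕ) * (h : ℝ))) *
        (starRingEnd ℂ) (e ((j : ℝ) / (P Y : ℕ) * (m : ℝ)))
      = ∑ j ∈ range (P Y), ((∑ y ∈ range Y, w y *
          e ((j : ℝ) / (P Y : ℕ) * (((P y : ℕ) : ℤ) - m : ℤ))) -
          ∑ h ∈ range (P Y), e ((j : ℝ) / (P Y : ℕ) * (((h : ℤ) - m : ℤ) : ℝ))) := by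
        refine Finset.sum_congr rfl fun j _ => ?_
        rw [sub_mul, Finset.sum_mul, Finset.sum_mul]
        congr 1
        · refine Finset.sum_congr rfl fun y _ => ?_
          rw [mul_assoc, e1]
        · exact Finset.sum_congr rfl fun h _ => e1 j h
    _ = (∑ y ∈ range Y, w y * ∑ j ∈ range (P Y),
          e ((j : ℝ) / (P Y : ℕ) * (((P y : ℕ) : ℤ) - m : ℤ))) -
          ∑ h ∈ range (P Y), ∑ j ∈ range (P Y),
            e ((j : ℝ) / (P Y : ℕ) * (((h : ℤ) - m : ℤ) : ℝ)) := by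
        rw [Finset.sum_sub_distrib]
        congr 1
        · rw [Finset.sum_comm]
          exact Finset.sum_congr rfl fun y _ => (Finset.mul_sum _ _ _).symm
        · rw [Finset.sum_comm]
    _ = 0 - ∑ h ∈ range (P Y), (if h = m.toNat then ((P Y : ℕ) : ℂ) else 0) := by
        congr 1
        · refine Finset.sum_eq_zero fun y hy => ?_
          have hy' := Finset.mem_range.1 hy
          rw [l2_orth (P Y) hL _ ?_, if_neg ?_, mul_zero]
          · intro h3
            exact h2 y hy' (sub_eq_zero.1 h3).symm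
          · have h4 : ((P y : ℕ) : ℤ) < P Y := by exact_mod_cast hP y hy'
            rw [abs_lt]
            constructor <;> omega
        · refine Finset.sum_congr rfl fun h hh => ?_
          have hh' : ((h : ℕ) : ℤ) < P Y := by exact_mod_cast Finset.mem_range.1 hh
          rw [l2_orth (P Y) hL _ ?_]
          · by_cases h5 : h = m.toNat
            · rw [if_pos h5, if_pos (by omega)]
            · rw [if_neg h5, if_neg (by omega)]
          · rw [abs_lt]
            constructor <;> omega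
    _ = - ((P Y : ℕ) : ℂ) := by
        rw [Finset.sum_ite_eq', if_pos (Finset.mem_range.2 (by omega)), zero_sub]

theorem t_L2 : S_L2 := by
  intro P Y ε hε hP0 hP hK E F hEF
  rcases E.eq_empty_or_nonempty with rfl | ⟨n0, hn0⟩
  · simp only [Finset.card_empty, Nat.cast_zero, zero_mul]; positivity
  rcases F.eq_empty_or_nonempty with rfl | ⟨a0, ha0⟩
  · simp only [Finset.card_empty, Nat.cast_zero, mul_zero]; positivity
  have hmono : StrictMono P := strictMono_nat_of_lt_succ hP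
  set L : ℕ := P Y with hLdef
  have hLpos : 0 < L := by
    have h := hEF n0 hn0 a0 ha0
    have : (0 : ℤ) < L := lt_of_le_of_lt h.1 h.2.1
    exact_mod_cast this
  have hL' : (0 : ℝ) < L := by exact_mod_cast hLpos
  have hE : ∀ n ∈ E, ∀ n' ∈ E, |n - n'| < (L : ℤ) := by
    intro n hn n' hn'
    have h1 := hEF n hn a0 ha0
    have h2 := hEF n' hn' a0 ha0
    rw [abs_lt]
    constructor <;> omega
  have hF : ∀ n ∈ F, ∀ n' ∈ F, |n - n'| < (L : ℤ) := by
    intro n hn n' hn'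
    have h1 := hEF n0 hn0 n hn
    have h2 := hEF n0 hn0 n' hn'
    rw [abs_lt]
    constructor <;> omega
  set w : ℕ → ℂ := fun y => (P (y + 1) : ℂ) - P y with hw
  set Kf : ℕ → ℂ := fun j => (∑ y ∈ range Y, w y * e ((j : ℝ) / L * (P y : ℝ))) -
      ∑ h ∈ range L, e ((j : ℝ) / L * (h : ℝ)) with hKf
  set Ef : ℕ → ℂ := fun j => ∑ n ∈ E, e ((j : ℝ) / L * (n : ℝ)) with hEf
  set Ff : ℕ → ℂ := fun j => ∑ n ∈ F, e ((j : ℝ) / L * (n : ℝ)) with hFf
  have hKb : ∀ j, ‖Kf j‖ ≤ ε * L := fun j => hK ((j : ℝ) / L)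
  have hpE : ∑ j ∈ range L, ‖Ef j‖ ^ 2 = L * E.card := l2_pars L hLpos E hE
  have hpF : ∑ j ∈ range L, ‖Ff j‖ ^ 2 = L * F.card := l2_pars L hLpos F hF
  have hT : ∑ j ∈ range L, Kf j * ((starRingEnd ℂ) (Ef j) * Ff j) =
      - ((L : ℂ) * (E.card * F.card)) := by
    calc ∑ j ∈ range L, Kf j * ((starRingEnd ℂ) (Ef j) * Ff j)
        = ∑ j ∈ range L, ∑ n ∈ E, ∑ a ∈ F,
            Kf j * (starRingEnd ℂ) (e ((j : ℝ) / L * ((n - a : ℤ) : ℝ))) := by
          refine Finset.sum_congr rfl fun j _ => ?_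
          rw [hEf, hFf]
          simp only
          rw [map_sum, Finset.sum_mul_sum, Finset.mul_sum]
          refine Finset.sum_congr rfl fun n _ => ?_
          rw [Finset.mul_sum]
          refine Finset.sum_congr rfl fun a _ => ?_
          congr 1
          rw [← e_neg, ← e_neg, ← e_add]
          congr 1
          push_cast
          ring
      _ = ∑ n ∈ E, ∑ a ∈ F, ∑ j ∈ range L,
            Kf j * (starRingEnd ℂ) (e ((j : ℝ) / L * ((n - a : ℤ) : ℝ))) := by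
          rw [Finset.sum_comm]
          refine Finset.sum_congr rfl fun n _ => ?_
          rw [Finset.sum_comm]
      _ = ∑ n ∈ E, ∑ a ∈ F, (- (L : ℂ)) := by
          refine Finset.sum_congr rfl fun n hn => Finset.sum_congr rfl fun a ha => ?_
          have h := hEF n hn a ha
          exact l2_inner P Y w (fun y hy => hmono hy) (n - a) h.1 h.2.1 h.2.2
      _ = - ((L : ℂ) * (E.card * F.card)) := by
          simp only [Finset.sum_const, nsmul_eq_mul]
          ring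
  have hT1 : (L : ℝ) * (E.card * F.card) ≤ ε * L * ∑ j ∈ range L, ‖Ef j‖ * ‖Ff j‖ := by
    have h1 : ‖∑ j ∈ range L, Kf j * ((starRingEnd ℂ) (Ef j) * Ff j)‖ =
        (L : ℝ) * (E.card * F.card) := by
      rw [hT, norm_neg, norm_mul, norm_mul, Complex.norm_natCast, Complex.norm_natCast,
        Complex.norm_natCast]
    rw [← h1]
    refine (norm_sum_le _ _).trans ?_
    rw [Finset.mul_sum]
    refine Finset.sum_le_sum fun j _ => ?_
    rw [norm_mul, norm_mul, RCLike.norm_conj]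
    exact mul_le_mul_of_nonneg_right (hKb j) (by positivity)
  have hcs : (∑ j ∈ range L, ‖Ef j‖ * ‖Ff j‖) ^ 2 ≤ (L * E.card) * (L * F.card) := by
    rw [← hpE, ← hpF]
    exact Finset.sum_mul_sq_le_sq_mul_sq _ _ _
  set S : ℝ := ∑ j ∈ range L, ‖Ef j‖ * ‖Ff j‖ with hS
  set x : ℝ := (E.card : ℝ) * F.card with hx
  have hx0 : 0 < x := by
    have h1 : 0 < E.card := Finset.card_pos.2 ⟨n0, hn0⟩
    have h2 : 0 < F.card := Finset.card_pos.2 ⟨a0, ha0⟩
    rw [hx]
    exact mul_pos (by exact_mod_cast h1) (by exact_mod_cast h2)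
  have hxS : x ≤ ε * S := by
    have h1 : (L : ℝ) * x ≤ L * (ε * S) := by
      calc (L : ℝ) * x ≤ ε * L * S := hT1
        _ = L * (ε * S) := by ring
    exact le_of_mul_le_mul_left h1 hL'
  have hS2 : S ^ 2 ≤ (L : ℝ) ^ 2 * x := by
    calc S ^ 2 ≤ (L * E.card) * (L * F.card) := hcs
      _ = (L : ℝ) ^ 2 * x := by rw [hx]; ring
  have h3 : x ^ 2 ≤ ε ^ 2 * ((L : ℝ) ^ 2 * x) := by
    calc x ^ 2 ≤ (ε * S) ^ 2 := pow_le_pow_left₀ hx0.le hxS 2
      _ = ε ^ 2 * S ^ 2 := by ring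
      _ ≤ ε ^ 2 * ((L : ℝ) ^ 2 * x) := mul_le_mul_of_nonneg_left hS2 (by positivity)
  have h4 : x * x ≤ (ε ^ 2 * (L : ℝ) ^ 2) * x := by nlinarith
  exact le_of_mul_le_mul_right h4 hx0

end H54Waring
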