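import Pool.Agent.H54Waring.Basic

set_option autoImplicit false

namespace H54Waring

open Finset

lemma loc_sum_modEq (n : ℕ) (f g : ℕ → ℕ) (s : Finset ℕ) (h : ∀ i ∈ s, f i ≡ g i [MOD n]) :
    ∑ i ∈ s, f i ≡ ∑ i ∈ s, g i [MOD n] := by
  classical
  induction s using Finset.induction_on with
  | empty => simp only [Finset.sum_empty]; exact Nat.ModEq.refl 0
  | insert a s ha ih =>
    rw [Finset.sum_insert ha, Finset.sum_insert ha]
    exact Nat.ModEq.add (h a (Finset.mem_insert_self a s))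
      (ih (fun i hi => h i (Finset.mem_insert_of_mem hi)))

lemma loc_combine (k a b t : ℕ) (hab : Nat.Coprime a b)
    (ha : ∃ ρ : ℕ → ℕ, (∑ i ∈ range (4 * k), ρ i ^ k) ≡ t [MOD a] ∧ ρ 0 ≡ 1 [MOD a])
    (hb : ∃ ρ : ℕ → ℕ, (∑ i ∈ range (4 * k), ρ i ^ k) ≡ t [MOD b] ∧ ρ 0 ≡ 1 [MOD b]) :
    ∃ ρ : ℕ → ℕ, (∑ i ∈ range (4 * k), ρ i ^ k) ≡ t [MOD (a * b)] ∧ ρ 0 ≡ 1 [MOD (a * b)] := by
  obtain ⟨ρ1, h11, h12⟩ := ha
  obtain ⟨ρ2, h21, h22⟩ := hb
  refine ⟨fun i => (Nat.chineseRemainder hab (ρ1 i) (ρ2 i) : ℕ), ?_, ?_⟩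
  · refine (Nat.modEq_and_modEq_iff_modEq_mul hab).1 ⟨?_, ?_⟩
    · refine Nat.ModEq.trans (loc_sum_modEq a _ (fun i => ρ1 i ^ k) _ ?_) h11
      intro i _
      exact Nat.ModEq.pow k (Nat.chineseRemainder hab (ρ1 i) (ρ2 i)).2.1
    · refine Nat.ModEq.trans (loc_sum_modEq b _ (fun i => ρ2 i ^ k) _ ?_) h21
      intro i _
      exact Nat.ModEq.pow k (Nat.chineseRemainder hab (ρ1 i) (ρ2 i)).2.2
  · refine (Nat.modEq_and_modEq_iff_modEq_mul hab).1 ⟨?_, ?_⟩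
    · exact Nat.ModEq.trans (Nat.chineseRemainder hab (ρ1 0) (ρ2 0)).2.1 h12
    · exact Nat.ModEq.trans (Nat.chineseRemainder hab (ρ1 0) (ρ2 0)).2.2 h22

theorem t_LOC : S_LOCP → S_LOC2 → S_LOC := by
  intro hP h2 k q t hk hq hv
  revert hq hv
  induction q using Nat.recOnPosPrimePosCoprime with
  | prime_pow p n hp hn =>
    intro _ hv
    by_cases hp2 : p = 2
    · subst hp2
      rw [padicValNat.prime_pow] at hv
      obtain ⟨ρ, h1, h3⟩ := h2 k n t hk hv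
      exact ⟨ρ, h1, by rw [h3]⟩
    · obtain ⟨ρ, h1, h3⟩ := hP k p n t hk hp hp2
      exact ⟨ρ, h1, by rw [h3]⟩
  | zero =>
    intro h0 _
    omega
  | one =>
    intro _ _
    exact ⟨fun _ => 1, Nat.modEq_one, Nat.modEq_one⟩
  | coprime a b ha hb hab iha ihb =>
    intro _ hv
    rw [padicValNat.mul (by omega) (by omega)] at hv
    exact loc_combine k a b t hab (iha (by omega) (by omega)) (ihb (by omega) (by omega))

end H54Waring
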