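import Pool.Agent.H54Waring.Basic

/-! Powers of two (task LOC2). -/

set_option autoImplicit false

namespace H54Waring

open Finset

theorem t_LOC2 : S_LOC2 := by
  intro k j t hk hj
  have h1 : 2 ^ j ≤ 4 * k := by
    have h2 : 2 ^ j ≤ 2 ^ (padicValNat 2 k + 2) := Nat.pow_le_pow_right (by norm_num) hj
    have h3 : 2 ^ padicValNat 2 k ≤ k := Nat.le_of_dvd hk pow_padicValNat_dvd
    rw [pow_add] at h2
    omega
  have h0 : 0 < 2 ^ j := by positivity
  obtain ⟨t', ht1, ht2, ht3⟩ : ∃ t' : ℕ, 1 ≤ t' ∧ t' ≤ 2 ^ j ∧ t' ≡ t [MOD 2 ^ j] := by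
    by_cases h : t % 2 ^ j = 0
    · refine ⟨2 ^ j, h0, le_rfl, ?_⟩
      unfold Nat.ModEq
      rw [Nat.mod_self, h]
    · exact ⟨t % 2 ^ j, Nat.one_le_iff_ne_zero.2 h, (Nat.mod_lt _ h0).le, Nat.mod_modEq _ _⟩
  refine ⟨fun i => if i < t' then 1 else 0, ?_, if_pos ht1⟩
  have h4 : ∑ i ∈ range (4 * k), (if i < t' then 1 else 0) ^ k = t' := by
    have h5 : ∀ i ∈ range (4 * k), (if i < t' then 1 else 0) ^ k = if i < t' then 1 else 0 := by
      intro i _
      split_ifs
      · exact one_pow k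
      · exact zero_pow (by omega)
    rw [Finset.sum_congr rfl h5, ← Finset.sum_filter, Finset.sum_const, smul_eq_mul, mul_one]
    have h6 : (range (4 * k)).filter (fun i => i < t') = range t' := by
      ext i
      simp only [mem_filter, mem_range]
      omega
    rw [h6, card_range]
  show (∑ i ∈ range (4 * k), (if i < t' then 1 else 0) ^ k) ≡ t [MOD 2 ^ j]
  rw [h4]
  exact ht3

end H54Waring
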