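import Pool.Agent.H54Waring.Basic

namespace H54Waring

/-- sums of `m` `k`-th powers -/
def locpS {R : Type} [CommRing R] (k m : ℕ) (r : R) : Prop :=
  ∃ x : Fin m → R, ∑ i, x i ^ k = r

theorem locp_add {R : Type} [CommRing R] {k a b : ℕ} {r s : R}
    (hr : locpS k a r) (hs : locpS k b s) : locpS k (a + b) (r + s) := by
  obtain ⟨x, hx⟩ := hr
  obtain ⟨y, hy⟩ := hs
  refine ⟨Fin.append x y, ?_⟩
  rw [Fin.sum_univ_add]
  simp only [Fin.append_left, Fin.append_right, hx, hy]

theorem locp_zero {R : Type} [CommRing R] {k : ℕ} (hk : 1 ≤ k) (m : ℕ) :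
    locpS k m (0 : R) := by
  refine ⟨fun _ => 0, ?_⟩
  simp [zero_pow (by omega : k ≠ 0)]

theorem locp_mono {R : Type} [CommRing R] {k : ℕ} (hk : 1 ≤ k) {m n : ℕ} (h : m ≤ n) {r : R}
    (hr : locpS k m r) : locpS k n r := by
  have := locp_add hr (locp_zero (R := R) hk (n - m))
  rw [add_zero, Nat.add_sub_cancel' h] at this
  exact this

theorem locp_one {R : Type} [CommRing R] (k : ℕ) : locpS k 1 (1 : R) :=
  ⟨fun _ => 1, by simp⟩

theorem locp_pow_mul {R : Type} [CommRing R] {k m : ℕ} {r : R} (a : R)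
    (hr : locpS k m r) : locpS k m (a ^ k * r) := by
  obtain ⟨x, hx⟩ := hr
  refine ⟨fun i => a * x i, ?_⟩
  rw [← hx, Finset.mul_sum]
  exact Finset.sum_congr rfl (fun i _ => mul_pow _ _ _)

theorem locp_unit {p j : ℕ} (hp : p.Prime) (hj : j ≠ 0) (n : ℕ) :
    IsUnit (n : ZMod (p ^ j)) ↔ ¬ p ∣ n := by
  rw [ZMod.isUnit_iff_coprime, Nat.coprime_pow_right_iff (Nat.pos_of_ne_zero hj),
    Nat.coprime_comm, Nat.Prime.coprime_iff_not_dvd hp]

/-- the closing argument -/
theorem locp_closed {p j k m : ℕ} (hp : p.Prime) (hj : j ≠ 0) (hk : 1 ≤ k) (hm : 1 ≤ m)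
    (h : ∀ u : ZMod (p ^ j), IsUnit u → locpS k (m + 2) u → locpS k m u)
    (u : ZMod (p ^ j)) (hu : IsUnit u) : locpS k m u := by
  have one : locpS k 1 (1 : ZMod (p ^ j)) := locp_one k
  have key : ∀ n : ℕ, (IsUnit (n : ZMod (p ^ j)) → locpS k m (n : ZMod (p ^ j))) ∧
      (IsUnit ((n + 1 : ℕ) : ZMod (p ^ j)) → locpS k m ((n + 1 : ℕ) : ZMod (p ^ j))) := by
    intro n
    induction n with
    | zero =>
      refine ⟨fun _ => ?_, fun _ => ?_⟩
      · simpa using locp_zero (R := ZMod (p ^ j)) hk m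
      · simpa using locp_mono hk hm one
    | succ n ih =>
      refine ⟨ih.2, fun hu2 => ?_⟩
      apply h _ hu2
      by_cases h1 : IsUnit ((n + 1 : ℕ) : ZMod (p ^ j))
      · have := locp_add (ih.2 h1) one
        have h3 : (((n + 1 + 1 : ℕ)) : ZMod (p ^ j)) = ((n + 1 : ℕ) : ZMod (p ^ j)) + 1 := by
          push_cast; ring
        rw [h3]
        exact locp_mono hk (by omega) this
      · have h2 : IsUnit (n : ZMod (p ^ j)) := by
          rw [locp_unit hp hj] at h1 ⊢
          intro hd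
          apply h1
          intro hd1
          have := (Nat.dvd_add_right hd).mp hd1
          exact hp.one_lt.ne' (Nat.dvd_one.mp this)
        have := locp_add (locp_add (ih.1 h2) one) one
        have h3 : (((n + 1 + 1 : ℕ)) : ZMod (p ^ j)) = (n : ZMod (p ^ j)) + 1 + 1 := by
          push_cast; ring
        rw [h3]
        exact locp_mono hk (by omega) this
  have : NeZero (p ^ j) := ⟨pow_ne_zero _ hp.ne_zero⟩
  have := (key u.val).1
  rw [ZMod.natCast_zmod_val] at this
  exact this hu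

theorem locp_units {p j k : ℕ} (hp : p.Prime) (hp2 : p ≠ 2) (hj : j ≠ 0) (hk : 1 ≤ k)
    (u : ZMod (p ^ j)) (hu : IsUnit u) : locpS k (2 * k - 1) u := by
  classical
  have : NeZero (p ^ j) := ⟨pow_ne_zero _ hp.ne_zero⟩
  have : IsCyclic (ZMod (p ^ j))ˣ := ZMod.isCyclic_units_of_prime_pow p hp hp2 j
  set H : Subgroup (ZMod (p ^ j))ˣ := (powMonoidHom k : (ZMod (p ^ j))ˣ →* _).range with hH
  have : Fintype ((ZMod (p ^ j))ˣ ⧸ H) := Fintype.ofFinite _
  have hind : H.index ≤ k := by
    rw [hH, IsCyclic.index_powMonoidHom_range]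
    exact Nat.gcd_le_right _ (by omega)
  let C : ℕ → Finset ((ZMod (p ^ j))ˣ ⧸ H) := fun m =>
    Finset.univ.filter (fun c => ∃ v : (ZMod (p ^ j))ˣ, (v : (ZMod (p ^ j))ˣ ⧸ H) = c ∧
      locpS k m (v : ZMod (p ^ j)))
  have hmem : ∀ m (v : (ZMod (p ^ j))ˣ), (v : (ZMod (p ^ j))ˣ ⧸ H) ∈ C m →
      locpS k m (v : ZMod (p ^ j)) := by
    intro m v hv
    obtain ⟨w, hw, hs⟩ := (Finset.mem_filter.mp hv).2
    rw [QuotientGroup.eq] at hw
    obtain ⟨a, ha⟩ := hw
    have hav : v = a ^ k * w := by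
      have : (powMonoidHom k : (ZMod (p ^ j))ˣ →* _) a = a ^ k := rfl
      rw [this] at ha
      rw [ha]
      rw [mul_comm, mul_inv_cancel_left]
    rw [hav]
    push_cast
    exact locp_pow_mul _ hs
  have hmono : ∀ {m n : ℕ}, m ≤ n → C m ⊆ C n := by
    intro m n hmn c hc
    obtain ⟨w, hw, hs⟩ := (Finset.mem_filter.mp hc).2
    exact Finset.mem_filter.mpr ⟨Finset.mem_univ _, w, hw, locp_mono hk hmn hs⟩
  have key : ∀ i : ℕ, (∀ v : ZMod (p ^ j), IsUnit v → locpS k (2 * i + 1) v) ∨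
      i + 1 ≤ (C (2 * i + 1)).card := by
    intro i
    induction i with
    | zero =>
      right
      apply Finset.card_pos.mpr
      refine ⟨((1 : (ZMod (p ^ j))ˣ) : (ZMod (p ^ j))ˣ ⧸ H), Finset.mem_filter.mpr
        ⟨Finset.mem_univ _, 1, rfl, ?_⟩⟩
      simpa using locp_one (R := ZMod (p ^ j)) k
    | succ i ih =>
      rcases ih with ih | ih
      · left
        exact fun v hv => locp_mono hk (by omega) (ih v hv)
      · by_cases hall : ∀ v : ZMod (p ^ j), IsUnit v → locpS k (2 * i + 1) v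
        · left
          exact fun v hv => locp_mono hk (by omega) (hall v hv)
        · right
          have : ∃ v : ZMod (p ^ j), IsUnit v ∧ locpS k (2 * i + 1 + 2) v ∧
              ¬ locpS k (2 * i + 1) v := by
            by_contra hcon
            push Not at hcon
            exact hall (fun v hv => locp_closed hp hj hk (by omega) hcon v hv)
          obtain ⟨v, hv, hv1, hv2⟩ := this
          obtain ⟨w, rfl⟩ := hv
          have h1 : (w : (ZMod (p ^ j))ˣ ⧸ H) ∈ C (2 * (i + 1) + 1) :=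
            Finset.mem_filter.mpr ⟨Finset.mem_univ _, w, rfl, hv1⟩
          have h2 : (w : (ZMod (p ^ j))ˣ ⧸ H) ∉ C (2 * i + 1) := fun hc => hv2 (hmem _ _ hc)
          have hss : C (2 * i + 1) ⊂ C (2 * (i + 1) + 1) := by
            refine Finset.ssubset_iff_subset_ne.mpr ⟨hmono (by omega), fun he => h2 ?_⟩
            rw [he]; exact h1
          have := Finset.card_lt_card hss
          omega
  rcases key (k - 1) with h | h
  · have := h u hu
    rwa [show 2 * (k - 1) + 1 = 2 * k - 1 by omega] at this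
  · obtain ⟨w, rfl⟩ := hu
    have h1 : (C (2 * (k - 1) + 1)) = Finset.univ := by
      apply Finset.eq_univ_of_card
      apply le_antisymm (Finset.card_le_univ _)
      have : Fintype.card ((ZMod (p ^ j))ˣ ⧸ H) = H.index := by
        rw [Subgroup.index, Nat.card_eq_fintype_card]
      rw [this]
      omega
    have := hmem (2 * (k - 1) + 1) w (by rw [h1]; exact Finset.mem_univ _)
    rwa [show 2 * (k - 1) + 1 = 2 * k - 1 by omega] at this

/-- every residue modulo an odd prime power is a sum of `4k` `k`-th powers the first of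
which is one -/
theorem locp_main {p j k : ℕ} (hp : p.Prime) (hp2 : p ≠ 2) (hk : 1 ≤ k)
    (t : ZMod (p ^ j)) : locpS k (4 * k - 1) t := by
  rcases Nat.eq_zero_or_pos j with rfl | hj
  · have : Subsingleton (ZMod (p ^ 0)) := by
      rw [pow_zero]; infer_instance
    rw [Subsingleton.elim t 0]
    exact locp_zero hk _
  have hj : j ≠ 0 := by omega
  have : NeZero (p ^ j) := ⟨pow_ne_zero _ hp.ne_zero⟩
  have h3 : 3 ≤ p := by
    have := hp.two_le
    omega
  -- a unit `u` with `t = u + 1` or `t = u + 2`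
  have two : IsUnit (2 : ZMod (p ^ j)) := by
    have := (locp_unit hp hj 2).mpr (fun h => by
      have := Nat.le_of_dvd (by norm_num) h
      omega)
    simpa using this
  have h1 : locpS k (2 * k - 1) (1 : ZMod (p ^ j)) := locp_units hp hp2 hj hk _ isUnit_one
  have h2 : locpS k (2 * k - 1) (2 : ZMod (p ^ j)) := locp_units hp hp2 hj hk _ two
  by_cases hu : IsUnit (t - 1)
  · have := locp_add (locp_units hp hp2 hj hk _ hu) h1
    rw [sub_add_cancel] at this
    exact locp_mono hk (by omega) this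
  · have hu2 : IsUnit (t - 2) := by
      obtain ⟨n, hn⟩ : ∃ n : ℕ, (n : ZMod (p ^ j)) = t - 2 :=
        ⟨(t - 2).val, ZMod.natCast_zmod_val _⟩
      have hn1 : ((n + 1 : ℕ) : ZMod (p ^ j)) = t - 1 := by
        push_cast
        rw [hn]; ring
      rw [← hn1, locp_unit hp hj] at hu
      rw [← hn, locp_unit hp hj]
      intro hd
      apply hu
      intro hd1
      have := (Nat.dvd_add_right hd).mp hd1
      exact hp.one_lt.ne' (Nat.dvd_one.mp this)
    have := locp_add (locp_units hp hp2 hj hk _ hu2) h2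
    rw [sub_add_cancel] at this
    exact locp_mono hk (by omega) this

theorem locp_fin {q k n t : ℕ} (hne : NeZero q) (x : Fin n → ZMod q)
    (hx : ∑ i, x i ^ k = (t : ZMod q) - 1) :
    ∃ ρ : ℕ → ℕ, (∑ i ∈ Finset.range (n + 1), ρ i ^ k) ≡ t [MOD q] ∧ ρ 0 = 1 := by
  let f : ℕ → ℕ := fun i => if h : i < n then (x ⟨i, h⟩).val else 0
  have hf : ∀ i : Fin n, ((f i : ℕ) : ZMod q) = x i := by
    intro i
    simp [f]
  refine ⟨fun i => if i = 0 then 1 else f (i - 1), ?_, by simp⟩
  rw [← ZMod.natCast_eq_natCast_iff, Finset.sum_range_succ']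
  have h0 : ∀ i : ℕ, (if i + 1 = 0 then 1 else f (i + 1 - 1)) = f i := fun i => by simp
  simp only [h0, if_true, one_pow]
  rw [Finset.sum_range]
  push_cast
  have h2 : (∑ i : Fin n, ((f i : ℕ) : ZMod q) ^ k) = (t : ZMod q) - 1 := by
    rw [← hx]
    exact Finset.sum_congr rfl (fun i _ => by rw [hf i])
  rw [h2]
  ring

theorem t_LOCP : S_LOCP := by
  intro k p j t hk hp hp2
  have hne : NeZero (p ^ j) := ⟨pow_ne_zero _ hp.ne_zero⟩
  obtain ⟨x, hx⟩ := locp_main (j := j) hp hp2 hk ((t : ZMod (p ^ j)) - 1)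
  have := locp_fin hne x hx
  rwa [show 4 * k - 1 + 1 = 4 * k by omega] at this

end H54Waring
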