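import Pool.Agent.H54Waring.Basic

/-! Task MAJ: major arc upper bound. -/

set_option autoImplicit false

namespace H54Waring

open Finset

theorem maj_period (k Q ρ b : ℕ) (a : ℤ) (hb : 1 ≤ b) (y : ℕ) :
    e ((a : ℝ) * ((ρ : ℝ) + Q * ((b + y : ℕ) : ℝ)) ^ k / b) =
      e ((a : ℝ) * ((ρ : ℝ) + Q * (y : ℝ)) ^ k / b) := by
  have h1 : (b : ℤ) ∣ ((ρ : ℤ) + Q * ((b + y : ℕ) : ℤ)) ^ k - ((ρ : ℤ) + Q * (y : ℤ)) ^ k := by
    refine dvd_trans ?_ (sub_dvd_pow_sub_pow _ _ k)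
    refine ⟨(Q : ℤ), ?_⟩
    push_cast
    ring
  obtain ⟨m, hm⟩ := h1
  have h2 : ((ρ : ℝ) + Q * ((b + y : ℕ) : ℝ)) ^ k = ((ρ : ℝ) + Q * (y : ℝ)) ^ k + b * m := by
    have h3 : (((((ρ : ℤ) + Q * ((b + y : ℕ) : ℤ)) ^ k - ((ρ : ℤ) + Q * (y : ℤ)) ^ k : ℤ)) : ℝ)
        = ((b * m : ℤ) : ℝ) := by rw [hm]
    push_cast at h3 ⊢
    linarith
  have hb' : (b : ℝ) ≠ 0 := by
    have : (0 : ℝ) < b := by exact_mod_cast hb
    exact this.ne'
  have h4 : (a : ℝ) * ((ρ : ℝ) + Q * ((b + y : ℕ) : ℝ)) ^ k / b =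
      (a : ℝ) * ((ρ : ℝ) + Q * (y : ℝ)) ^ k / b + ((a * m : ℤ) : ℝ) := by
    rw [h2]
    push_cast
    field_simp
  rw [h4, e_add_int]

theorem maj_F (f : ℕ → ℂ) (b : ℕ) (hb : 1 ≤ b) (hf : ∀ y, ‖f y‖ ≤ 1)
    (hper : ∀ y, f (b + y) = f y) (n : ℕ) :
    ‖∑ y ∈ range n, f y‖ ≤ ‖∑ y ∈ range b, f y‖ / b * n + b := by
  have hb' : (0 : ℝ) < b := by exact_mod_cast hb
  induction n using Nat.strong_induction_on with
  | _ n ih =>
    by_cases hn : n < b
    · have h1 : ‖∑ y ∈ range n, f y‖ ≤ n := by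
        calc ‖∑ y ∈ range n, f y‖ ≤ ∑ y ∈ range n, ‖f y‖ := norm_sum_le _ _
          _ ≤ ∑ y ∈ range n, (1 : ℝ) := Finset.sum_le_sum fun y _ => hf y
          _ = n := by simp
      have h2 : (n : ℝ) ≤ b := by exact_mod_cast hn.le
      have h3 : 0 ≤ ‖∑ y ∈ range b, f y‖ / b * n := by positivity
      linarith
    · obtain ⟨m, rfl⟩ := Nat.exists_eq_add_of_le (not_lt.1 hn)
      have h1 := ih m (by omega)
      rw [Finset.sum_range_add]
      have h2 : ∑ x ∈ range m, f (b + x) = ∑ x ∈ range m, f x :=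
        Finset.sum_congr rfl fun x _ => hper x
      rw [h2]
      calc ‖∑ x ∈ range b, f x + ∑ x ∈ range m, f x‖
          ≤ ‖∑ x ∈ range b, f x‖ + ‖∑ x ∈ range m, f x‖ := norm_add_le _ _
        _ ≤ ‖∑ x ∈ range b, f x‖ + (‖∑ y ∈ range b, f y‖ / b * m + b) := by linarith
        _ = ‖∑ y ∈ range b, f y‖ / b * ((b + m : ℕ) : ℝ) + b := by
            push_cast
            field_simp
            ring

theorem maj_abel (f v : ℕ → ℂ) (n : ℕ) :
    ∑ y ∈ range n, f y * v y = (∑ y ∈ range n, f y) * v n -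
      ∑ y ∈ range n, (∑ x ∈ range (y + 1), f x) * (v (y + 1) - v y) := by
  induction n with
  | zero => simp
  | succ n ih =>
    rw [Finset.sum_range_succ, ih,
      Finset.sum_range_succ (fun y => (∑ x ∈ range (y + 1), f x) * (v (y + 1) - v y)),
      Finset.sum_range_succ f]
    ring

theorem t_MAJ : S_MAJ := by
  intro k Q ρ b Y a β hk hb
  set f : ℕ → ℂ := fun y => e ((a : ℝ) * ((ρ : ℝ) + Q * (y : ℝ)) ^ k / b) with hf
  set z : ℕ → ℝ := fun y => ((ρ : ℝ) + Q * (y : ℝ)) ^ k with hz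
  set v : ℕ → ℂ := fun y => e (β * z y) with hv
  have hsum : ∑ y ∈ range Y, e (((a : ℝ) / b + β) * ((ρ : ℝ) + Q * y) ^ k) =
      ∑ y ∈ range Y, f y * v y := by
    refine Finset.sum_congr rfl fun y _ => ?_
    rw [hf, hv]
    simp only
    rw [← e_add]
    congr 1
    rw [hz]
    ring
  have hf1 : ∀ y, ‖f y‖ ≤ 1 := fun y => (norm_e _).le
  have hper : ∀ y, f (b + y) = f y := fun y => maj_period k Q ρ b a hb y
  have hF := maj_F f b hb hf1 hper
  set M : ℝ := ‖∑ y ∈ range b, f y‖ / b * Y + b with hM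
  have hM0 : 0 ≤ M := by rw [hM]; positivity
  have hFM : ∀ n ≤ Y, ‖∑ y ∈ range n, f y‖ ≤ M := by
    intro n hn
    refine (hF n).trans ?_
    have h1 : (n : ℝ) ≤ Y := by exact_mod_cast hn
    have h2 : 0 ≤ ‖∑ y ∈ range b, f y‖ / b := by positivity
    have := mul_le_mul_of_nonneg_left h1 h2
    rw [hM]
    linarith
  have hmono : ∀ y, z y ≤ z (y + 1) := by
    intro y
    refine pow_le_pow_left₀ (by positivity) ?_ k
    push_cast
    have : (0 : ℝ) ≤ Q := Nat.cast_nonneg Q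
    nlinarith
  have hv1 : ∀ y, ‖v (y + 1) - v y‖ ≤ 2 * Real.pi * |β| * (z (y + 1) - z y) := by
    intro y
    refine (norm_e_sub_le _ _).trans (le_of_eq ?_)
    rw [← mul_sub, abs_mul, abs_of_nonneg (sub_nonneg.2 (hmono y))]
    ring
  have hz0 : 0 ≤ z 0 := by rw [hz]; positivity
  rw [hsum, maj_abel]
  calc ‖(∑ y ∈ range Y, f y) * v Y -
        ∑ y ∈ range Y, (∑ x ∈ range (y + 1), f x) * (v (y + 1) - v y)‖
      ≤ ‖(∑ y ∈ range Y, f y) * v Y‖ +
        ‖∑ y ∈ range Y, (∑ x ∈ range (y + 1), f x) * (v (y + 1) - v y)‖ := norm_sub_le _ _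
    _ ≤ M + ∑ y ∈ range Y, M * (2 * Real.pi * |β| * (z (y + 1) - z y)) := by
        refine add_le_add ?_ ?_
        · rw [norm_mul, hv]
          simp only
          rw [norm_e, mul_one]
          exact hFM Y le_rfl
        · refine (norm_sum_le _ _).trans (Finset.sum_le_sum fun y hy => ?_)
          rw [norm_mul]
          exact mul_le_mul (hFM (y + 1) (Finset.mem_range.1 hy)) (hv1 y) (norm_nonneg _) hM0
    _ = M + M * (2 * Real.pi * |β| * (z Y - z 0)) := by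
        rw [← Finset.mul_sum, ← Finset.mul_sum, Finset.sum_range_sub]
    _ ≤ M * (1 + 2 * Real.pi * |β| * z Y) := by
        have h3 : 0 ≤ 2 * Real.pi * |β| * z 0 := by positivity
        nlinarith [mul_nonneg hM0 h3]

end H54Waring
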