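import Pool.Agent.H54Waring.Basic

set_option autoImplicit false

namespace H54Waring

open Polynomial

theorem poly409_aux {R : Type*} [CommRing R] (g : R[X]) (h : R) (k : ℕ)
    (hg : g.natDegree ≤ k + 1) :
    (g.comp (X + C h) - g).natDegree ≤ k ∧
      (g.comp (X + C h) - g).coeff k = (k + 1) * h * g.coeff (k + 1) := by
  have ht : g.comp (X + C h) = taylor h g := by rw [taylor_apply]
  rw [ht]
  have hev : ∀ j n, (g.natDegree < j + n) → (taylor h g).coeff j =
      ∑ i ∈ Finset.range n, (((i + j).choose j : ℕ) : R) * g.coeff (i + j) * h ^ i := by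
    intro j n hn
    rw [taylor_coeff]
    rcases Nat.eq_zero_or_pos n with rfl | hn0
    · have : hasseDeriv j g = 0 := hasseDeriv_eq_zero_of_lt_natDegree g j (by omega)
      rw [this]; simp
    · rw [eval_eq_sum_range' (n := n) (lt_of_le_of_lt (natDegree_hasseDeriv_le g j) (by omega))]
      refine Finset.sum_congr rfl fun i _ => ?_
      rw [hasseDeriv_coeff]
  constructor
  · rw [natDegree_le_iff_coeff_eq_zero]
    intro N hN
    rw [coeff_sub]
    rcases (show N = k + 1 ∨ k + 1 < N by omega) with rfl | hlt
    · rw [hev (k + 1) 1 (by omega)]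
      simp
    · rw [hev N 0 (by omega), coeff_eq_zero_of_natDegree_lt (by omega)]
      simp
  · rw [coeff_sub, hev k 2 (by omega)]
    rw [Finset.sum_range_succ, Finset.sum_range_one]
    have h1 : (1 + k).choose k = k + 1 := by
      rw [add_comm 1 k]; exact Nat.choose_succ_self_right k
    rw [h1]
    simp [add_comm 1 k]
    ring

theorem t_POLY : S_POLY := by
  intro k g h hg
  exact poly409_aux g h k hg

end H54Waring
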