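import Pool.Agent.H54Waring.Basic

set_option autoImplicit false

namespace H54Waring

open Finset

lemma SIZE_conv (a d : ℝ) (ha : 0 ≤ a) (hd : 0 ≤ d) (k : ℕ) :
    (a + d) ^ k - a ^ k ≤ (a + 2 * d) ^ k - (a + d) ^ k := by
  induction k with
  | zero => simp
  | succ k ih =>
    have h1 : 0 ≤ (a + d) ^ k - a ^ k := by
      have := pow_le_pow_left₀ ha (by linarith : a ≤ a + d) k
      linarith
    have h2 : (a + 2 * d) ^ (k + 1) - (a + d) ^ (k + 1)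
        = (a + 2 * d) * ((a + 2 * d) ^ k - (a + d) ^ k) + d * (a + d) ^ k := by ring
    have h3 : (a + d) ^ (k + 1) - a ^ (k + 1)
        = a * ((a + d) ^ k - a ^ k) + d * (a + d) ^ k := by ring
    rw [h2, h3]
    have h4 : a * ((a + d) ^ k - a ^ k) ≤ (a + 2 * d) * ((a + 2 * d) ^ k - (a + d) ^ k) := by
      apply mul_le_mul (by linarith) ih h1 (by linarith)
    linarith

lemma SIZE_mv (x x' : ℝ) (hx : 0 ≤ x) (hxx : x ≤ x') (k : ℕ) :
    x' * (x' ^ k - x ^ k) ≤ k * (x' - x) * x' ^ k := by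
  induction k with
  | zero => simp
  | succ k ih =>
    have hx' : 0 ≤ x' := hx.trans hxx
    have h0 : x ^ k ≤ x' ^ k := pow_le_pow_left₀ hx hxx k
    have h1 : x' * (x' ^ (k + 1) - x ^ (k + 1))
        = x' * (x' * (x' ^ k - x ^ k)) + x' * (x' - x) * x ^ k := by ring
    rw [h1]
    have h2 : x' * (x' * (x' ^ k - x ^ k)) ≤ x' * (k * (x' - x) * x' ^ k) :=
      mul_le_mul_of_nonneg_left ih hx'
    have h3 : x' * (x' - x) * x ^ k ≤ x' * (x' - x) * x' ^ k :=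
      mul_le_mul_of_nonneg_left h0 (mul_nonneg hx' (by linarith))
    have h4 : ((k + 1 : ℕ) : ℝ) * (x' - x) * x' ^ (k + 1)
        = x' * (k * (x' - x) * x' ^ k) + x' * (x' - x) * x' ^ k := by push_cast; ring
    rw [h4]
    linarith

lemma SIZE_eq (k Q ρ : ℕ) (h : ∀ y : ℕ, Q * k ∣ (ρ + Q * y) ^ k - ρ ^ k) (y : ℕ) :
    ((Q : ℝ) * k) * (PP k Q ρ y : ℝ) = ((ρ : ℝ) + Q * y) ^ k - (ρ : ℝ) ^ k := by
  have h1 : Q * k * PP k Q ρ y = (ρ + Q * y) ^ k - ρ ^ k := by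
    unfold PP
    exact Nat.mul_div_cancel' (h y)
  have h2 : ρ ^ k ≤ (ρ + Q * y) ^ k := Nat.pow_le_pow_left (Nat.le_add_right _ _) k
  have h3 : ((Q * k * PP k Q ρ y : ℕ) : ℝ) = (((ρ + Q * y) ^ k - ρ ^ k : ℕ) : ℝ) := by rw [h1]
  rw [Nat.cast_sub h2] at h3
  push_cast at h3
  exact h3

theorem t_SIZE : S_SIZE := by
  intro k Q ρ hk hQ hdiv
  have hkR : (2 : ℝ) ≤ k := by exact_mod_cast hk
  have hQR : (1 : ℝ) ≤ Q := by exact_mod_cast hQ
  have hm : (0 : ℝ) < (Q : ℝ) * k := by positivity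
  have hρ : (0 : ℝ) ≤ ρ := Nat.cast_nonneg _
  have hE := SIZE_eq k Q ρ hdiv
  have hlt : ∀ y : ℕ, PP k Q ρ y < PP k Q ρ (y + 1) := by
    intro y
    have h1 : ((ρ : ℝ) + Q * y) ^ k < ((ρ : ℝ) + Q * ((y + 1 : ℕ) : ℝ)) ^ k := by
      apply pow_lt_pow_left₀ _ (by positivity) (by omega)
      push_cast
      nlinarith
    have h2 : ((Q : ℝ) * k) * (PP k Q ρ y : ℝ) < ((Q : ℝ) * k) * (PP k Q ρ (y + 1) : ℝ) := by
      rw [hE y, hE (y + 1)]
      linarith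
    have h3 := lt_of_mul_lt_mul_left h2 hm.le
    exact_mod_cast h3
  refine ⟨hlt, ?_, ?_⟩
  · intro y
    have h1 := SIZE_conv ((ρ : ℝ) + Q * y) Q (by positivity) (by positivity) k
    have e0 := hE y
    have e1 := hE (y + 1)
    have e2 := hE (y + 2)
    push_cast at e1 e2
    rw [show (ρ : ℝ) + Q * y + Q = ρ + Q * (y + 1) by ring,
      show (ρ : ℝ) + Q * y + 2 * Q = ρ + Q * (y + 2) by ring] at h1
    have h2 : ((Q : ℝ) * k) * ((PP k Q ρ (y + 1) : ℝ) - PP k Q ρ y) ≤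
        ((Q : ℝ) * k) * ((PP k Q ρ (y + 2) : ℝ) - PP k Q ρ (y + 1)) := by
      rw [mul_sub, mul_sub, e0, e1, e2]
      linarith
    have h3 := le_of_mul_le_mul_left h2 hm
    have h4 : ((PP k Q ρ (y + 1) + PP k Q ρ (y + 1) : ℕ) : ℝ) ≤
        ((PP k Q ρ (y + 2) + PP k Q ρ y : ℕ) : ℝ) := by
      push_cast; linarith
    have h5 : PP k Q ρ (y + 1) + PP k Q ρ (y + 1) ≤ PP k Q ρ (y + 2) + PP k Q ρ y := by
      exact_mod_cast h4
    have h6 := hlt y
    have h7 := hlt (y + 1)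
    rw [show y + 1 + 1 = y + 2 by ring] at h7
    omega
  · refine ⟨4 * k * (ρ + 1), fun Y hY => ?_⟩
    set c : ℝ := 1 / (4 * k) with hc
    have hc0 : 0 < c := by positivity
    have hpow : (1 + c) ^ k ≤ 3 / 2 := by
      have h1 : 1 + c ≤ Real.exp c := by linarith [Real.add_one_le_exp c]
      have h2 : (1 + c) ^ k ≤ (Real.exp c) ^ k := pow_le_pow_left₀ (by positivity) h1 k
      have h3 : (Real.exp c) ^ k = Real.exp (1 / 4) := by
        rw [← Real.exp_nat_mul]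
        congr 1
        rw [hc]; field_simp
      have h4 : Real.exp (1 / 4) ≤ 1 / (1 - 1 / 4) :=
        Real.exp_bound_div_one_sub_of_interval (by norm_num) (by norm_num)
      rw [h3] at h2
      norm_num at h4
      linarith
    have hYR : (4 : ℝ) * k * (ρ + 1) ≤ Y := by exact_mod_cast hY
    have hcY : (ρ : ℝ) + 1 ≤ c * Y := by
      rw [hc, one_div_mul_eq_div, le_div_iff₀ (by positivity)]
      linarith
    have hY0 : (0 : ℝ) ≤ Y := Nat.cast_nonneg _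
    have hcY0 : 0 ≤ c * Y := by positivity
    set X : ℝ := (ρ : ℝ) + Q * Y with hX
    have hXnn : 0 ≤ X := by positivity
    have hQY : (Y : ℝ) ≤ Q * Y := by nlinarith
    have hcQY : c * Y ≤ c * (Q * Y) := mul_le_mul_of_nonneg_left hQY hc0.le
    have hρ1 : (ρ : ℝ) ≤ c * (Q * Y) := by linarith
    have hQ1 : (Q : ℝ) ≤ c * (Q * Y) := by
      have h1 : (1 : ℝ) ≤ c * Y := by linarith
      calc (Q : ℝ) = Q * 1 := by ring
        _ ≤ Q * (c * Y) := mul_le_mul_of_nonneg_left h1 (by positivity)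
        _ = c * (Q * Y) := by ring
    have hQ2 : (Q : ℝ) ≤ c * X := by
      refine hQ1.trans (mul_le_mul_of_nonneg_left ?_ hc0.le)
      rw [hX]; linarith
    have hA : (X + Q) ^ k ≤ 3 / 2 * X ^ k := by
      calc (X + Q) ^ k ≤ ((1 + c) * X) ^ k :=
            pow_le_pow_left₀ (by positivity) (by linarith) k
        _ = (1 + c) ^ k * X ^ k := mul_pow _ _ _
        _ ≤ 3 / 2 * X ^ k := mul_le_mul_of_nonneg_right hpow (by positivity)
    have hB : X ^ k ≤ 3 / 2 * ((Q : ℝ) * Y) ^ k := by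
      calc X ^ k ≤ ((1 + c) * (Q * Y)) ^ k :=
            pow_le_pow_left₀ hXnn (by rw [hX]; linarith) k
        _ = (1 + c) ^ k * ((Q : ℝ) * Y) ^ k := mul_pow _ _ _
        _ ≤ 3 / 2 * ((Q : ℝ) * Y) ^ k := mul_le_mul_of_nonneg_right hpow (by positivity)
    have hR : 2 * (ρ : ℝ) ^ k ≤ X ^ k := by
      have h1 : (ρ : ℝ) ≤ Q * Y := by
        have h2 : c ≤ 1 := by
          rw [hc, div_le_one (by positivity)]; linarith
        have h3 : c * (Q * Y) ≤ 1 * (Q * Y) := mul_le_mul_of_nonneg_right h2 (by positivity)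
        linarith
      have h2 : (2 * (ρ : ℝ)) ^ k ≤ X ^ k := pow_le_pow_left₀ (by positivity) (by rw [hX]; linarith) k
      have h3 : (2 : ℝ) ≤ 2 ^ k := by
        calc (2 : ℝ) = 2 ^ 1 := by norm_num
          _ ≤ 2 ^ k := pow_le_pow_right₀ (by norm_num) (by omega)
      rw [mul_pow] at h2
      have h4 : 2 * (ρ : ℝ) ^ k ≤ 2 ^ k * (ρ : ℝ) ^ k := mul_le_mul_of_nonneg_right h3 (by positivity)
      linarith
    have e0 := hE Y
    have e1 := hE (Y + 1)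
    push_cast at e1
    rw [show (ρ : ℝ) + Q * (Y + 1) = X + Q by rw [hX]; ring] at e1
    rw [← hX] at e0
    have hXk : 0 ≤ X ^ k := by positivity
    have hRk : 0 ≤ (ρ : ℝ) ^ k := by positivity
    refine ⟨?_, ?_, ?_⟩
    · have h1 := SIZE_mv X (X + Q) hXnn (by linarith) k
      have hAB : 0 ≤ (X + Q) ^ k - X ^ k := by
        have := pow_le_pow_left₀ hXnn (by linarith : X ≤ X + Q) k
        linarith
      have h2 : (Q * Y) * ((X + Q) ^ k - X ^ k) ≤ (X + Q) * ((X + Q) ^ k - X ^ k) :=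
        mul_le_mul_of_nonneg_right (by rw [hX]; linarith) hAB
      have h3 : (Q : ℝ) * (Y * ((X + Q) ^ k - X ^ k)) ≤ Q * (k * (X + Q) ^ k) := by
        calc (Q : ℝ) * (Y * ((X + Q) ^ k - X ^ k)) = (Q * Y) * ((X + Q) ^ k - X ^ k) := by ring
          _ ≤ (X + Q) * ((X + Q) ^ k - X ^ k) := h2
          _ ≤ k * (X + Q - X) * (X + Q) ^ k := h1
          _ = Q * (k * (X + Q) ^ k) := by ring
      have h4 := le_of_mul_le_mul_left h3 (by linarith : (0 : ℝ) < Q)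
      have h5 : (k : ℝ) * (X + Q) ^ k ≤ k * (4 * (X ^ k - (ρ : ℝ) ^ k)) :=
        mul_le_mul_of_nonneg_left (by linarith) (by linarith)
      have h6 : ((Q : ℝ) * k) * (((PP k Q ρ (Y + 1) : ℝ) - PP k Q ρ Y) * Y) ≤
          ((Q : ℝ) * k) * (4 * k * PP k Q ρ Y) := by
        calc ((Q : ℝ) * k) * (((PP k Q ρ (Y + 1) : ℝ) - PP k Q ρ Y) * Y)
            = (((Q : ℝ) * k) * (PP k Q ρ (Y + 1) : ℝ) - ((Q : ℝ) * k) * PP k Q ρ Y) * Y := by ring
          _ = Y * ((X + Q) ^ k - X ^ k) := by rw [e0, e1]; ring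
          _ ≤ k * (4 * (X ^ k - (ρ : ℝ) ^ k)) := h4.trans h5
          _ = 4 * k * (((Q : ℝ) * k) * PP k Q ρ Y) := by rw [e0]; ring
          _ = ((Q : ℝ) * k) * (4 * k * PP k Q ρ Y) := by ring
      exact le_of_mul_le_mul_left h6 hm
    · have h6 : ((Q : ℝ) * k) * (PP k Q ρ (Y + 1) : ℝ) ≤ ((Q : ℝ) * k) * (2 * PP k Q ρ Y) := by
        calc ((Q : ℝ) * k) * (PP k Q ρ (Y + 1) : ℝ) = (X + Q) ^ k - (ρ : ℝ) ^ k := e1
          _ ≤ 2 * (X ^ k - (ρ : ℝ) ^ k) := by linarith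
          _ = 2 * (((Q : ℝ) * k) * PP k Q ρ Y) := by rw [e0]
          _ = ((Q : ℝ) * k) * (2 * PP k Q ρ Y) := by ring
      exact le_of_mul_le_mul_left h6 hm
    · have hPnn : (0 : ℝ) ≤ PP k Q ρ Y := Nat.cast_nonneg _
      have hm1 : (1 : ℝ) ≤ (Q : ℝ) * k := by nlinarith
      have h6 : (PP k Q ρ Y : ℝ) ≤ ((Q : ℝ) * k) * PP k Q ρ Y := by
        calc (PP k Q ρ Y : ℝ) = 1 * PP k Q ρ Y := by ring
          _ ≤ ((Q : ℝ) * k) * PP k Q ρ Y := mul_le_mul_of_nonneg_right hm1 hPnn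
      rw [e0] at h6
      have h7 : (0 : ℝ) ≤ ((Q : ℝ) * Y) ^ k := by positivity
      have h8 : 2 * (Q : ℝ) ^ k * (Y : ℝ) ^ k = 2 * ((Q : ℝ) * Y) ^ k := by rw [mul_pow]; ring
      rw [h8]
      linarith

end H54Waring
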