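import Pool.Agent.H54Waring.Basic

set_option autoImplicit false

namespace H54Waring

theorem v_nd_le (x : ℝ) (m : ℤ) : nd x ≤ |x - m| := round_le x m

theorem v_card_nat (s : Finset ℕ) (L : ℝ) (hL : 0 ≤ L)
    (h : ∀ a ∈ s, ∀ b ∈ s, (b : ℝ) - a ≤ L) : (s.card : ℝ) ≤ L + 1 := by
  rcases s.eq_empty_or_nonempty with rfl | hne
  · simp only [Finset.card_empty, Nat.cast_zero]
    linarith
  · have hsub : s ⊆ Finset.Icc (s.min' hne) (s.min' hne + ⌊L⌋₊) := by
      intro b hb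
      rw [Finset.mem_Icc]
      refine ⟨s.min'_le b hb, ?_⟩
      have h1 := h _ (s.min'_mem hne) b hb
      have h2 : b - s.min' hne ≤ ⌊L⌋₊ := by
        apply Nat.le_floor
        rw [Nat.cast_sub (s.min'_le b hb)]
        exact h1
      omega
    have h3 := Finset.card_le_card hsub
    rw [Nat.card_Icc] at h3
    have h4 : s.card ≤ ⌊L⌋₊ + 1 := by omega
    calc (s.card : ℝ) ≤ ((⌊L⌋₊ + 1 : ℕ) : ℝ) := by exact_mod_cast h4
      _ = (⌊L⌋₊ : ℝ) + 1 := by push_cast; ring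
      _ ≤ L + 1 := by linarith [Nat.floor_le hL]

theorem v_card_int (s : Finset ℤ) (L : ℝ) (hL : 0 ≤ L)
    (h : ∀ a ∈ s, ∀ b ∈ s, (b : ℝ) - a ≤ L) : (s.card : ℝ) ≤ L + 1 := by
  rcases s.eq_empty_or_nonempty with rfl | hne
  · simp only [Finset.card_empty, Nat.cast_zero]
    linarith
  · have hsub : s ⊆ Finset.Icc (s.min' hne) (s.min' hne + ⌊L⌋) := by
      intro b hb
      rw [Finset.mem_Icc]
      refine ⟨s.min'_le b hb, ?_⟩
      have h1 := h _ (s.min'_mem hne) b hb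
      have h2 : b - s.min' hne ≤ ⌊L⌋ := by
        apply Int.le_floor.2
        push_cast
        exact h1
      omega
    have h3 := Finset.card_le_card hsub
    rw [Int.card_Icc] at h3
    have h5 : (0 : ℤ) ≤ ⌊L⌋ := Int.floor_nonneg.2 hL
    have h4 : (s.card : ℤ) ≤ ⌊L⌋ + 1 := by omega
    calc (s.card : ℝ) = ((s.card : ℤ) : ℝ) := by norm_cast
      _ ≤ ((⌊L⌋ + 1 : ℤ) : ℝ) := by exact_mod_cast h4
      _ = (⌊L⌋ : ℝ) + 1 := by push_cast; ring
      _ ≤ L + 1 := by linarith [Int.floor_le L]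

/-- one residue class -/
theorem v_class (z0 ψ τ x : ℝ) (J : ℕ) (hx : |ψ| = x) (hx0 : 0 < x) (hxτ : x ≤ 2 * τ)
    (hτ : 2 * τ ≤ 1) :
    (((Finset.range (J + 1)).filter (fun j : ℕ => nd (z0 + j * ψ) ≤ τ)).card : ℝ) ≤
      (J * x + 2) * (4 * τ / x) := by
  classical
  have hτ0 : 0 ≤ τ := by linarith
  set s := (Finset.range (J + 1)).filter (fun j : ℕ => nd (z0 + j * ψ) ≤ τ) with hs
  have hfib : ∀ m ∈ s.image (fun j : ℕ => round (z0 + j * ψ)),
      (s.filter (fun j : ℕ => round (z0 + j * ψ) = m)).card ≤ ⌊4 * τ / x⌋₊ := by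
    intro m _
    apply Nat.le_floor
    have h1 : ((s.filter (fun j : ℕ => round (z0 + j * ψ) = m)).card : ℝ) ≤ 2 * τ / x + 1 := by
      apply v_card_nat _ _ (by positivity)
      intro a ha b hb
      rw [Finset.mem_filter, hs, Finset.mem_filter] at ha hb
      have ha1 : |z0 + a * ψ - m| ≤ τ := by rw [← ha.2]; exact ha.1.2
      have hb1 : |z0 + b * ψ - m| ≤ τ := by rw [← hb.2]; exact hb.1.2
      have h2 : |((b : ℝ) - a) * ψ| ≤ 2 * τ := by
        have h3 : ((b : ℝ) - a) * ψ = (z0 + b * ψ - m) - (z0 + a * ψ - m) := by ring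
        rw [h3]
        calc |(z0 + b * ψ - m) - (z0 + a * ψ - m)| ≤ |z0 + b * ψ - m| + |z0 + a * ψ - m| :=
              abs_sub _ _
          _ ≤ 2 * τ := by linarith
      rw [abs_mul, hx] at h2
      rw [le_div_iff₀ hx0]
      exact (mul_le_mul_of_nonneg_right (le_abs_self _) hx0.le).trans h2
    have h4 : (1 : ℝ) ≤ 2 * τ / x := by
      rw [le_div_iff₀ hx0]
      linarith
    calc ((s.filter (fun j : ℕ => round (z0 + j * ψ) = m)).card : ℝ) ≤ 2 * τ / x + 1 := h1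
      _ ≤ 2 * τ / x + 2 * τ / x := by linarith
      _ = 4 * τ / x := by ring
  have hcard := Finset.card_le_mul_card_image (f := fun j : ℕ => round (z0 + j * ψ)) s
    ⌊4 * τ / x⌋₊ hfib
  have himg : ((s.image (fun j : ℕ => round (z0 + j * ψ))).card : ℝ) ≤ J * x + 1 + 1 := by
    apply v_card_int _ _ (by positivity)
    intro a ha b hb
    rw [Finset.mem_image] at ha hb
    obtain ⟨i, hi, rfl⟩ := ha
    obtain ⟨j, hj, rfl⟩ := hb
    rw [hs, Finset.mem_filter, Finset.mem_range] at hi hj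
    have hi1 : |z0 + i * ψ - round (z0 + i * ψ)| ≤ τ := hi.2
    have hj1 : |z0 + j * ψ - round (z0 + j * ψ)| ≤ τ := hj.2
    have h3 : ((j : ℝ) - i) * ψ ≤ J * x := by
      calc ((j : ℝ) - i) * ψ ≤ |((j : ℝ) - i) * ψ| := le_abs_self _
        _ = |(j : ℝ) - i| * x := by rw [abs_mul, hx]
        _ ≤ J * x := by
          apply mul_le_mul_of_nonneg_right _ hx0.le
          rw [abs_le]
          have hi2 : (i : ℝ) ≤ J := by exact_mod_cast Nat.lt_succ_iff.1 hi.1
          have hj2 : (j : ℝ) ≤ J := by exact_mod_cast Nat.lt_succ_iff.1 hj.1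
          have hi3 : (0 : ℝ) ≤ i := Nat.cast_nonneg _
          have hj3 : (0 : ℝ) ≤ j := Nat.cast_nonneg _
          constructor <;> linarith
    have h4 := abs_le.1 hi1
    have h5 := abs_le.1 hj1
    nlinarith [h4.1, h4.2, h5.1, h5.2]
  have hfl : ((⌊4 * τ / x⌋₊ : ℕ) : ℝ) ≤ 4 * τ / x := Nat.floor_le (by
    have : 0 ≤ τ := by linarith
    positivity)
  calc (s.card : ℝ) ≤ ((⌊4 * τ / x⌋₊ * (s.image (fun j : ℕ => round (z0 + j * ψ))).card : ℕ) : ℝ) := by
        exact_mod_cast hcard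
    _ = (⌊4 * τ / x⌋₊ : ℝ) * ((s.image (fun j : ℕ => round (z0 + j * ψ))).card : ℝ) := by push_cast; ring
    _ ≤ (4 * τ / x) * (J * x + 1 + 1) := by
        apply mul_le_mul hfl himg (Nat.cast_nonneg _)
        have : 0 ≤ τ := by linarith
        positivity
    _ = (J * x + 2) * (4 * τ / x) := by ring


theorem v_nd_add (φ : ℝ) (h r q j : ℕ) (hh : h = r + q * j) :
    nd (h * φ) = nd (r * φ + j * (q * φ - round ((q : ℝ) * φ))) := by
  have h1 : (r : ℝ) * φ + j * (q * φ - round ((q : ℝ) * φ)) =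
      h * φ - (((j : ℤ) * round ((q : ℝ) * φ) : ℤ) : ℝ) := by
    rw [hh]
    push_cast
    ring
  rw [h1]
  unfold nd
  rw [round_sub_intCast]
  push_cast
  ring_nf

/-- all residue classes -/
theorem v_total (φ τ x : ℝ) (q Y : ℕ) (hq : 1 ≤ q) (hx : nd (q * φ) = x) (hx0 : 0 < x)
    (hxτ : x ≤ 2 * τ) (hτ : 2 * τ ≤ 1) (D : Finset ℕ) (hD : ∀ h ∈ D, h ≤ Y ∧ nd (h * φ) ≤ τ) :
    (D.card : ℝ) ≤ 4 * τ * Y + 8 * q * τ / x := by
  classical
  have hτ0 : 0 ≤ τ := by linarith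
  have hq0 : (0 : ℝ) < q := by exact_mod_cast hq
  have h1 : D.card = ∑ r ∈ Finset.range q, (D.filter (fun h => h % q = r)).card :=
    Finset.card_eq_sum_card_fiberwise fun h _ => Finset.mem_coe.2 (Finset.mem_range.2 (Nat.mod_lt _ hq))
  have h2 : ∀ r ∈ Finset.range q, ((D.filter (fun h => h % q = r)).card : ℝ) ≤
      ((Y : ℝ) / q * x + 2) * (4 * τ / x) := by
    intro r _
    have h3 : (D.filter (fun h => h % q = r)).card ≤
        ((Finset.range (Y / q + 1)).filter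
          (fun j : ℕ => nd (r * φ + j * (q * φ - round ((q : ℝ) * φ))) ≤ τ)).card := by
      apply Finset.card_le_card_of_injOn (fun h => h / q)
      · intro h hh
        have hh' := Finset.mem_filter.1 (Finset.mem_coe.1 hh)
        rw [Finset.mem_coe, Finset.mem_filter, Finset.mem_range]
        obtain ⟨hY, hn⟩ := hD h hh'.1
        refine ⟨Nat.lt_succ_of_le (Nat.div_le_div_right hY), ?_⟩
        rw [← v_nd_add φ h r q (h / q) (by rw [← hh'.2]; exact (Nat.mod_add_div h q).symm)]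
        exact hn
      · intro h hh h' hh' he
        have e1 := (Finset.mem_filter.1 (Finset.mem_coe.1 hh)).2
        have e2 := (Finset.mem_filter.1 (Finset.mem_coe.1 hh')).2
        have he' : h / q = h' / q := he
        rw [← Nat.mod_add_div h q, ← Nat.mod_add_div h' q, e1, e2, he']
    have h4 := v_class (r * φ) (q * φ - round ((q : ℝ) * φ)) τ x (Y / q) hx hx0 hxτ hτ
    calc ((D.filter (fun h => h % q = r)).card : ℝ) ≤
        (((Finset.range (Y / q + 1)).filter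
          (fun j : ℕ => nd (r * φ + j * (q * φ - round ((q : ℝ) * φ))) ≤ τ)).card : ℝ) := by
          exact_mod_cast h3
      _ ≤ (((Y / q : ℕ) : ℝ) * x + 2) * (4 * τ / x) := h4
      _ ≤ ((Y : ℝ) / q * x + 2) * (4 * τ / x) := by
          apply mul_le_mul_of_nonneg_right _ (by positivity)
          have := mul_le_mul_of_nonneg_right (Nat.cast_div_le (α := ℝ) (m := Y) (n := q)) hx0.le
          linarith
  calc (D.card : ℝ) = ∑ r ∈ Finset.range q, ((D.filter (fun h => h % q = r)).card : ℝ) := by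
        rw [h1]; push_cast; rfl
    _ ≤ ∑ r ∈ Finset.range q, ((Y : ℝ) / q * x + 2) * (4 * τ / x) := Finset.sum_le_sum h2
    _ = q * (((Y : ℝ) / q * x + 2) * (4 * τ / x)) := by rw [Finset.sum_const, Finset.card_range, nsmul_eq_mul]
    _ = 4 * τ * Y + 8 * q * τ / x := by
        field_simp
        ring

theorem v_nd_sub (a b : ℝ) : nd (a - b) ≤ nd a + nd b := by
  calc nd (a - b) ≤ |a - b - ((round a - round b : ℤ) : ℝ)| := v_nd_le _ _
    _ = |(a - round a) - (b - round b)| := by push_cast; ring_nf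
    _ ≤ nd a + nd b := abs_sub _ _

/-- two close elements -/
theorem v_gap (κ : ℝ) (Y : ℕ) (hκ : 0 < κ) (D : Finset ℕ) (hD : ∀ h ∈ D, 1 ≤ h ∧ h ≤ Y)
    (hc : κ * Y ≤ D.card) (hc2 : 2 ≤ D.card) :
    ∃ h ∈ D, ∃ h' ∈ D, h < h' ∧ ((h' - h : ℕ) : ℝ) ≤ 2 / κ := by
  classical
  by_contra hcon
  push Not at hcon
  set B := ⌊2 / κ⌋₊ with hB
  have hgap : ∀ h ∈ D, ∀ h' ∈ D, h < h' → B + 1 ≤ h' - h := by
    intro h hh h' hh' hlt
    have h1 := hcon h hh h' hh' hlt
    have h2 : B < h' - h := by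
      rw [hB]
      exact (Nat.floor_lt (by positivity)).2 h1
    omega
  have hinj : D.card ≤ (Finset.range ((Y - 1) / (B + 1) + 1)).card := by
    apply Finset.card_le_card_of_injOn (fun h => (h - 1) / (B + 1))
    · intro h hh
      rw [Finset.mem_coe, Finset.mem_range]
      have := hD h (Finset.mem_coe.1 hh)
      exact Nat.lt_succ_of_le (Nat.div_le_div_right (by omega))
    · intro h hh h' hh' he
      have he' : (h - 1) / (B + 1) = (h' - 1) / (B + 1) := he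
      have b1 := hD h (Finset.mem_coe.1 hh)
      have b2 := hD h' (Finset.mem_coe.1 hh')
      have m1 := Nat.mod_add_div (h - 1) (B + 1)
      have m2 := Nat.mod_add_div (h' - 1) (B + 1)
      have l1 := Nat.mod_lt (h - 1) (Nat.succ_pos B)
      have l2 := Nat.mod_lt (h' - 1) (Nat.succ_pos B)
      rw [he'] at m1
      rcases lt_trichotomy h h' with hlt | heq | hlt
      · have := hgap h (Finset.mem_coe.1 hh) h' (Finset.mem_coe.1 hh') hlt
        simp only [Nat.succ_eq_add_one] at l1 l2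
        omega
      · exact heq
      · have := hgap h' (Finset.mem_coe.1 hh') h (Finset.mem_coe.1 hh) hlt
        simp only [Nat.succ_eq_add_one] at l1 l2
        omega
  rw [Finset.card_range] at hinj
  have h3 : (D.card - 1) * (B + 1) ≤ Y - 1 :=
    (Nat.mul_le_mul_right _ (by omega : D.card - 1 ≤ (Y - 1) / (B + 1))).trans (Nat.div_mul_le_self _ _)
  have hY : 1 ≤ Y := by
    obtain ⟨h, hh⟩ := Finset.card_pos.1 (by omega : 0 < D.card)
    have := hD h hh
    omega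
  have h4 : ((D.card : ℝ) - 1) * (B + 1) ≤ (Y : ℝ) - 1 := by
    have h5 : (((D.card - 1) * (B + 1) : ℕ) : ℝ) ≤ ((Y - 1 : ℕ) : ℝ) := by exact_mod_cast h3
    rw [Nat.cast_mul, Nat.cast_sub (by omega), Nat.cast_sub hY] at h5
    push_cast at h5
    exact h5
  have h6 : 2 / κ < (B : ℝ) + 1 := Nat.lt_floor_add_one _
  have h7 : (2 : ℝ) ≤ D.card := by exact_mod_cast hc2
  have h8 : ((D.card : ℝ) - 1) * (2 / κ) < (Y : ℝ) := by
    have := mul_le_mul_of_nonneg_left h6.le (by linarith : (0 : ℝ) ≤ (D.card : ℝ) - 1)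
    linarith
  have h9 : ((D.card : ℝ) - 1) * 2 < κ * Y := by
    have := mul_lt_mul_of_pos_left h8 hκ
    have e : κ * (((D.card : ℝ) - 1) * (2 / κ)) = ((D.card : ℝ) - 1) * 2 := by
      field_simp
    linarith
  linarith

/-- the lemma -/
theorem v_main (φ τ κ : ℝ) (Y : ℕ) (hτ0 : 0 ≤ τ) (hκ : 0 < κ) (hτκ : 8 * τ ≤ κ) (hY : 2 ≤ κ * Y)
    (hc : κ * Y ≤ (((Finset.Icc 1 Y).filter (fun h : ℕ => nd (h * φ) ≤ τ)).card : ℝ)) :
    ∃ q : ℕ, 1 ≤ q ∧ (q : ℝ) ≤ 2 / κ ∧ nd (q * φ) ≤ 32 * τ / (κ ^ 2 * Y) := by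
  classical
  set D := (Finset.Icc 1 Y).filter (fun h : ℕ => nd (h * φ) ≤ τ) with hDdef
  have hD : ∀ h ∈ D, 1 ≤ h ∧ h ≤ Y := fun h hh => Finset.mem_Icc.1 (Finset.mem_filter.1 hh).1
  have hc2 : 2 ≤ D.card := by
    have : (2 : ℝ) ≤ (D.card : ℝ) := hY.trans hc
    exact_mod_cast this
  have hcY : (D.card : ℝ) ≤ Y := by
    have : D.card ≤ Y := by
      calc D.card ≤ (Finset.Icc 1 Y).card := Finset.card_filter_le _ _
        _ = Y := by simp
    exact_mod_cast this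
  have hYpos : (0 : ℝ) < Y := by
    by_contra h
    have h' : (Y : ℝ) = 0 := le_antisymm (not_lt.1 h) (Nat.cast_nonneg _)
    rw [h', mul_zero] at hY
    linarith
  have hκ1 : κ ≤ 1 := by
    by_contra h
    have := mul_lt_mul_of_pos_right (not_le.1 h) hYpos
    linarith
  obtain ⟨h, hh, h', hh', hlt, hle⟩ := v_gap κ Y hκ D hD hc hc2
  refine ⟨h' - h, by omega, hle, ?_⟩
  have hnd : nd (((h' - h : ℕ) : ℝ) * φ) ≤ 2 * τ := by
    rw [Nat.cast_sub hlt.le, sub_mul]
    have n1 : nd ((h' : ℝ) * φ) ≤ τ := (Finset.mem_filter.1 hh').2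
    have n2 : nd ((h : ℝ) * φ) ≤ τ := (Finset.mem_filter.1 hh).2
    linarith [v_nd_sub ((h' : ℝ) * φ) ((h : ℝ) * φ)]
  rcases (abs_nonneg (((h' - h : ℕ) : ℝ) * φ - round (((h' - h : ℕ) : ℝ) * φ))).eq_or_lt with h0 | h0
  · have h0' : nd (((h' - h : ℕ) : ℝ) * φ) = 0 := h0.symm
    rw [h0']
    positivity
  · have h0' : 0 < nd (((h' - h : ℕ) : ℝ) * φ) := h0
    have htot := v_total φ τ _ (h' - h) Y (by omega) rfl h0' hnd (by linarith) D
      (fun k hk => ⟨(hD k hk).2, (Finset.mem_filter.1 hk).2⟩)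
    set x := nd (((h' - h : ℕ) : ℝ) * φ) with hx
    set q : ℝ := ((h' - h : ℕ) : ℝ) with hq
    have h1 : κ * Y ≤ 4 * τ * Y + 8 * q * τ / x := hc.trans htot
    have h2 : 4 * τ * Y ≤ κ * Y / 2 := by nlinarith
    have h3 : κ * Y / 2 ≤ 8 * q * τ / x := by linarith
    have h4 : κ * Y / 2 * x ≤ 8 * q * τ := (le_div_iff₀ h0').1 h3
    have h5 : q * κ ≤ 2 := (le_div_iff₀ hκ).1 hle
    rw [le_div_iff₀ (by positivity)]
    have h6 : x * (κ ^ 2 * Y) = 2 * κ * (κ * Y / 2 * x) := by ring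
    rw [h6]
    have h7 : 2 * κ * (κ * Y / 2 * x) ≤ 2 * κ * (8 * q * τ) :=
      mul_le_mul_of_nonneg_left h4 (by positivity)
    have h8 : 2 * κ * (8 * q * τ) = 16 * τ * (q * κ) := by ring
    rw [h8] at h7
    have h9 : 16 * τ * (q * κ) ≤ 16 * τ * 2 := mul_le_mul_of_nonneg_left h5 (by positivity)
    linarith

theorem t_V : S_V := by
  intro κ τ φ Y hκ _ hτ0 hτ hY hc
  exact v_main φ τ κ Y hτ0 hκ (by linarith) hY hc

end H54Waring
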