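import Pool.Agent.H54Waring.Basic
set_option autoImplicit false
namespace H54Waring
open Finset
open scoped ComplexConjugate

theorem vdc_id (f : ℕ → ℂ) (hf : ∀ y, Complex.normSq (f y) = 1) (Y : ℕ) :
    Complex.normSq (∑ y ∈ range Y, f y) =
      Y + 2 * (∑ h ∈ Ico 1 Y, ∑ y ∈ range (Y - h), f (y + h) * conj (f y)).re := by
  induction Y with
  | zero => simp
  | succ Y ih =>
    rw [sum_range_succ, Complex.normSq_add, ih, hf]
    have h1 : ∑ h ∈ Ico 1 (Y + 1), ∑ y ∈ range (Y + 1 - h), f (y + h) * conj (f y) =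
        ∑ h ∈ Ico 1 (Y + 1), ((∑ y ∈ range (Y - h), f (y + h) * conj (f y)) +
          f Y * conj (f (Y - h))) := by
      refine sum_congr rfl fun h hh => ?_
      rw [mem_Ico] at hh
      have e : Y + 1 - h = (Y - h) + 1 := by omega
      rw [e, sum_range_succ]
      have e2 : Y - h + h = Y := by omega
      rw [e2]
    have h2 : ∑ h ∈ Ico 1 (Y + 1), ∑ y ∈ range (Y - h), f (y + h) * conj (f y) =
        ∑ h ∈ Ico 1 Y, ∑ y ∈ range (Y - h), f (y + h) * conj (f y) := by
      rcases Nat.eq_zero_or_pos Y with h0 | h0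
      · subst h0; simp
      · rw [sum_Ico_succ_top h0]
        simp
    have h3 : ∑ h ∈ Ico 1 (Y + 1), f Y * conj (f (Y - h)) = f Y * conj (∑ y ∈ range Y, f y) := by
      rw [map_sum, mul_sum]
      refine sum_nbij' (fun h => Y - h) (fun j => Y - j) ?_ ?_ ?_ ?_ ?_
      · intro h hh; simp only [mem_Ico, mem_range] at *; omega
      · intro h hh; simp only [mem_Ico, mem_range] at *; omega
      · intro h hh; simp only [mem_Ico] at *; omega
      · intro h hh; simp only [mem_range] at *; omega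
      · intro h hh; rfl
    rw [h1, sum_add_distrib, h2, h3]
    have h4 : (f Y * conj (∑ y ∈ range Y, f y)).re = ((∑ y ∈ range Y, f y) * conj (f Y)).re := by
      simp [Complex.mul_re]; ring
    rw [Complex.add_re, h4]
    push_cast
    ring

theorem vdc_gen (f : ℕ → ℂ) (hf : ∀ y, Complex.normSq (f y) = 1) (Y : ℕ) :
    ‖∑ y ∈ range Y, f y‖ ^ 2 ≤
      Y + 2 * ∑ h ∈ Ico 1 Y, ‖∑ y ∈ range (Y - h), f (y + h) * conj (f y)‖ := by
  rw [← Complex.normSq_eq_norm_sq, vdc_id f hf Y]
  have h := Complex.re_le_norm (∑ h ∈ Ico 1 Y, ∑ y ∈ range (Y - h), f (y + h) * conj (f y))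
  have h' := norm_sum_le (Ico 1 Y) (fun h => ∑ y ∈ range (Y - h), f (y + h) * conj (f y))
  linarith

theorem t_VDC : S_VDC := by
  intro g Y
  have h := vdc_gen (fun y => e (g y)) (fun y => by
    rw [Complex.normSq_eq_norm_sq, norm_e]; norm_num) Y
  have h2 : ∀ h y : ℕ, e (g (y + h)) * conj (e (g y)) = e (g (y + h) - g y) := fun h y =>
    (e_sub _ _).symm
  simpa only [h2] using h

end H54Waring
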