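import Pool.Agent.H54Waring.Basic

set_option autoImplicit false

namespace H54Waring

open Finset

lemma weyl_small (x B C : ℝ) (Y m : ℕ) (hY : 1 ≤ Y) (hYB : (Y : ℝ) ≤ B) (hC : B ^ m ≤ C) :
    nd x ≤ C / (Y : ℝ) ^ m := by
  have hY' : (0:ℝ) < Y := by exact_mod_cast hY
  have h1 : (Y:ℝ) ^ m ≤ C := (pow_le_pow_left₀ hY'.le hYB m).trans hC
  have h2 : (1:ℝ) ≤ C / (Y:ℝ) ^ m := by
    rw [le_div_iff₀ (by positivity)]; linarith
  linarith [nd_le_half x]

theorem t_WEYL : S_GEO → S_VDC → S_V → S_POLY → S_WEYL := by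
  intro hG hD hV hP k hk
  induction k, hk using Nat.le_induction with
  | base =>
    intro η hη
    have hpos : 0 < 1 / (2 * η) := by positivity
    refine ⟨1 / (2 * η) + 1, by linarith, ?_⟩
    intro g hg Y hY hS
    refine ⟨1, le_rfl, ?_, ?_⟩
    · push_cast
      linarith
    · have hY' : (0:ℝ) < Y := by exact_mod_cast hY
      have hg' : ∀ y : ℝ, g.eval y = g.coeff 1 * y + g.coeff 0 := by
        intro y
        have := Polynomial.eq_X_add_C_of_natDegree_le_one hg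
        conv_lhs => rw [this]
        simp
      have h1 := hG (g.coeff 1) (g.coeff 0) Y
      simp only [hg'] at hS
      have h2 : η * Y * nd (g.coeff 1) ≤ 1 / 2 :=
        le_trans (mul_le_mul_of_nonneg_right hS (nd_nonneg _)) h1
      rw [Nat.cast_one, one_mul, pow_one, le_div_iff₀ hY']
      have h3 : nd (g.coeff 1) * Y ≤ 1 / (2 * η) := by
        rw [le_div_iff₀ (by positivity)]
        nlinarith
      linarith
  | succ k hk ih =>
    intro η hη
    set η0 : ℝ := min η 1 with hη0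
    have h0 : 0 < η0 := lt_min hη one_pos
    have h01 : η0 ≤ 1 := min_le_right _ _
    obtain ⟨C', hC'1, hC'⟩ := ih (η0 ^ 2 / 8) (by positivity)
    obtain ⟨c, hc⟩ := exists_nat_ge C'
    have hc1r : (1:ℝ) ≤ c := hC'1.trans hc
    have hc1 : 1 ≤ c := by exact_mod_cast hc1r
    have hc0 : (0:ℝ) < c := by linarith
    have hC'0 : 0 < C' := by linarith
    set κ : ℝ := η0 ^ 2 / (4 * c) with hκ
    have hκ0 : 0 < κ := by positivity
    have hκ1 : κ ≤ 1 := by
      rw [hκ, div_le_one (by positivity)]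
      nlinarith
    set D : ℝ := C' * (8 / η0 ^ 2) ^ k with hD0
    have hDpos : 0 < D := by positivity
    set B : ℝ := 4 / η0 ^ 2 + 8 * D / κ + 2 / κ with hB
    have hp1 : 0 < 4 / η0 ^ 2 := by positivity
    have hp2 : 0 < 8 * D / κ := by positivity
    have hp3 : 0 < 2 / κ := by positivity
    have hBpos : 0 < B := by positivity
    have hBp : 0 < B ^ (k + 1) := by positivity
    have hp4 : 0 < 2 / κ * c * (k + 1) := by positivity
    have hp5 : 0 < 32 * D / κ ^ 2 := by positivity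
    refine ⟨1 + B ^ (k + 1) + 2 / κ * c * (k + 1) + 32 * D / κ ^ 2, by linarith, ?_⟩
    intro g hg Y hY hS
    have hY1 : (1:ℝ) ≤ Y := by exact_mod_cast hY
    have hY' : (0:ℝ) < Y := by linarith
    by_cases hsmall : (Y:ℝ) ≤ B
    · refine ⟨1, le_rfl, ?_, ?_⟩
      · push_cast
        linarith
      · exact weyl_small _ B _ Y (k + 1) hY hsmall (by linarith)
    rw [not_le] at hsmall
    have hb1 : 4 / η0 ^ 2 < Y := by linarith
    have hb2 : 8 * D / κ < Y := by linarith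
    have hb3 : 2 / κ < Y := by linarith
    have hb1' : 4 < Y * η0 ^ 2 := by rwa [div_lt_iff₀ (by positivity)] at hb1
    have hb2' : 8 * D < Y * κ := by rwa [div_lt_iff₀ (by positivity)] at hb2
    have hb3' : 2 < Y * κ := by rwa [div_lt_iff₀ (by positivity)] at hb3
    -- VDC
    obtain ⟨Sh, hSh⟩ : ∃ Sh : ℕ → ℝ, Sh = fun h =>
        ‖∑ y ∈ range (Y - h), e (g.eval ((y + h : ℕ) : ℝ) - g.eval (y : ℝ))‖ := ⟨_, rfl⟩
    have hv' : ‖∑ y ∈ range Y, e (g.eval (y:ℝ))‖ ^ 2 ≤ Y + 2 * ∑ h ∈ Ico 1 Y, Sh h := by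
      rw [hSh]
      exact hD (fun n : ℕ => g.eval (n:ℝ)) Y
    have hS' : η0 * Y ≤ ‖∑ y ∈ range Y, e (g.eval (y:ℝ))‖ :=
      le_trans (mul_le_mul_of_nonneg_right (min_le_left _ _) hY'.le) hS
    have hsq : (η0 * Y) ^ 2 ≤ ‖∑ y ∈ range Y, e (g.eval (y:ℝ))‖ ^ 2 :=
      pow_le_pow_left₀ (by positivity) hS' 2
    have hYq : 4 * (Y:ℝ) ≤ Y * η0 ^ 2 * Y := by nlinarith
    have hsum : 3 / 8 * η0 ^ 2 * Y ^ 2 ≤ ∑ h ∈ Ico 1 Y, Sh h := by nlinarith
    have hShle : ∀ h, Sh h ≤ ((Y - h : ℕ) : ℝ) := by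
      intro h
      rw [hSh]
      refine (norm_sum_le _ _).trans ?_
      simp [norm_e]
    obtain ⟨H, hHdef⟩ : ∃ H : Finset ℕ, H = (Ico 1 Y).filter (fun h => η0 ^ 2 / 8 * Y ≤ Sh h) :=
      ⟨_, rfl⟩
    have hH : η0 ^ 2 / 4 * Y ≤ (H.card : ℝ) := by
      have h1 : ∑ h ∈ Ico 1 Y, Sh h ≤ H.card * Y + η0 ^ 2 / 8 * Y * Y := by
        rw [← Finset.sum_filter_add_sum_filter_not (Ico 1 Y) (fun h => η0 ^ 2 / 8 * Y ≤ Sh h)]
        apply add_le_add
        · rw [← hHdef]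
          calc ∑ h ∈ H, Sh h ≤ ∑ h ∈ H, (Y:ℝ) := Finset.sum_le_sum
                (fun h _ => (hShle h).trans (by exact_mod_cast Nat.sub_le _ _))
            _ = H.card * Y := by rw [sum_const, nsmul_eq_mul]
        · calc ∑ h ∈ (Ico 1 Y).filter (fun h => ¬ η0 ^ 2 / 8 * Y ≤ Sh h), Sh h
              ≤ ∑ h ∈ (Ico 1 Y).filter (fun h => ¬ η0 ^ 2 / 8 * Y ≤ Sh h), η0 ^ 2 / 8 * Y :=
                Finset.sum_le_sum (fun h hh => (not_le.mp (mem_filter.mp hh).2).le)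
            _ = ((Ico 1 Y).filter (fun h => ¬ η0 ^ 2 / 8 * Y ≤ Sh h)).card * (η0 ^ 2 / 8 * Y) := by
                rw [sum_const, nsmul_eq_mul]
            _ ≤ Y * (η0 ^ 2 / 8 * Y) := by
                apply mul_le_mul_of_nonneg_right _ (by positivity)
                have h5 : ((Ico 1 Y).filter (fun h => ¬ η0 ^ 2 / 8 * Y ≤ Sh h)).card ≤ Y := by
                  refine (Finset.card_filter_le _ _).trans ?_
                  rw [Nat.card_Ico]
                  omega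
                exact_mod_cast h5
            _ = η0 ^ 2 / 8 * Y * Y := by ring
      have h2 : η0 ^ 2 / 4 * Y * Y ≤ H.card * Y := by nlinarith
      exact le_of_mul_le_mul_right h2 hY'
    -- choose q_h
    have hq : ∀ h ∈ H, ∃ q : ℕ, q ∈ Icc 1 c ∧
        nd ((q:ℝ) * ((k + 1 : ℝ) * h * g.coeff (k + 1))) ≤ D / (Y:ℝ) ^ k := by
      intro h hh
      rw [hHdef] at hh
      obtain ⟨hh1, hh2⟩ := mem_filter.mp hh
      rw [mem_Ico] at hh1
      obtain ⟨hp1, hp2⟩ := hP k g (h:ℝ) hg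
      have hYh : 1 ≤ Y - h := by omega
      have hcast : ((Y - h : ℕ):ℝ) ≤ Y := by exact_mod_cast Nat.sub_le _ _
      have hev : ∀ y : ℕ, (g.comp (Polynomial.X + Polynomial.C (h:ℝ)) - g).eval (y:ℝ) =
          g.eval ((y + h : ℕ):ℝ) - g.eval (y:ℝ) := by
        intro y
        simp [Polynomial.eval_sub, Polynomial.eval_comp]
      obtain ⟨q, hq1, hq2, hq3⟩ := hC' _ hp1 (Y - h) hYh (by
        simp only [hev]
        calc η0 ^ 2 / 8 * ((Y - h : ℕ):ℝ) ≤ η0 ^ 2 / 8 * Y := by gcongr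
          _ ≤ Sh h := hh2
          _ = _ := by rw [hSh])
      refine ⟨q, ?_, ?_⟩
      · rw [mem_Icc]
        refine ⟨hq1, ?_⟩
        exact_mod_cast hq2.trans hc
      · rw [hp2] at hq3
        refine hq3.trans ?_
        have hlow : η0 ^ 2 / 8 * Y ≤ ((Y - h : ℕ):ℝ) := hh2.trans (hShle h)
        have hpw : (η0 ^ 2 / 8 * Y) ^ k ≤ ((Y - h : ℕ):ℝ) ^ k :=
          pow_le_pow_left₀ (by positivity) hlow k
        calc C' / ((Y - h : ℕ):ℝ) ^ k ≤ C' / (η0 ^ 2 / 8 * Y) ^ k := by gcongr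
          _ = D / (Y:ℝ) ^ k := by
            rw [hD0, mul_pow, div_pow, div_pow]
            field_simp
    classical
    choose! Qf hQ1 hQ2 using hq
    obtain ⟨q, hqm, hqc⟩ := Finset.exists_le_card_fiber_of_nsmul_le_card_of_maps_to
      (s := H) (t := Icc 1 c) (f := Qf) (b := κ * Y) hQ1 ⟨1, by simp [hc1]⟩ (by
        rw [Nat.card_Icc, nsmul_eq_mul]
        have : ((c + 1 - 1 : ℕ) : ℝ) = c := by simp
        rw [this, hκ]
        calc (c:ℝ) * (η0 ^ 2 / (4 * c) * Y) = η0 ^ 2 / 4 * Y := by field_simp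
          _ ≤ _ := hH)
    have hVin : κ * Y ≤ (((Icc 1 Y).filter (fun h : ℕ =>
        nd ((h:ℝ) * ((q:ℝ) * ((k + 1 : ℝ) * g.coeff (k + 1)))) ≤ D / (Y:ℝ) ^ k)).card : ℝ) := by
      refine hqc.trans ?_
      have : (H.filter (fun x => Qf x = q)).card ≤ ((Icc 1 Y).filter (fun h : ℕ =>
        nd ((h:ℝ) * ((q:ℝ) * ((k + 1 : ℝ) * g.coeff (k + 1)))) ≤ D / (Y:ℝ) ^ k)).card := by
        apply Finset.card_le_card
        intro h hh
        obtain ⟨hh1, hh2⟩ := mem_filter.mp hh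
        have h3 := hQ2 h hh1
        rw [hh2] at h3
        rw [hHdef] at hh1
        have h4 := mem_Ico.mp (mem_filter.mp hh1).1
        rw [mem_filter, mem_Icc]
        refine ⟨⟨h4.1, h4.2.le⟩, ?_⟩
        have h5 : (h:ℝ) * ((q:ℝ) * ((k + 1 : ℝ) * g.coeff (k + 1))) =
          (q:ℝ) * ((k + 1 : ℝ) * h * g.coeff (k + 1)) := by ring
        rw [h5]
        exact h3
      exact_mod_cast this
    have hYk : (Y:ℝ) ≤ (Y:ℝ) ^ k := by
      calc (Y:ℝ) = (Y:ℝ) ^ 1 := (pow_one _).symm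
        _ ≤ (Y:ℝ) ^ k := pow_le_pow_right₀ hY1 hk
    have hτ : D / (Y:ℝ) ^ k ≤ κ / 8 := by
      rw [div_le_iff₀ (by positivity)]
      nlinarith [mul_le_mul_of_nonneg_left hYk hκ0.le]
    obtain ⟨q', h1, h2, h3⟩ := hV κ (D / (Y:ℝ) ^ k) ((q:ℝ) * ((k + 1 : ℝ) * g.coeff (k + 1))) Y
      hκ0 hκ1 (by positivity) hτ (by linarith) hVin
    rw [mem_Icc] at hqm
    refine ⟨q' * q * (k + 1), ?_, ?_, ?_⟩
    · exact Nat.mul_pos (Nat.mul_pos h1 hqm.1) (Nat.succ_pos k)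
    · push_cast
      have hqc' : (q:ℝ) ≤ c := by exact_mod_cast hqm.2
      have : (q':ℝ) * q * (k + 1) ≤ 2 / κ * c * (k + 1) := by gcongr
      linarith
    · have h6 : ((q' * q * (k + 1) : ℕ) : ℝ) * g.coeff (k + 1) =
          (q':ℝ) * ((q:ℝ) * ((k + 1 : ℝ) * g.coeff (k + 1))) := by
        push_cast
        ring
      rw [h6]
      refine h3.trans ?_
      have h7 : 32 * (D / (Y:ℝ) ^ k) / (κ ^ 2 * Y) = (32 * D / κ ^ 2) / (Y:ℝ) ^ (k + 1) := by
        rw [pow_succ (Y:ℝ) k]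
        field_simp
      rw [h7]
      apply div_le_div_of_nonneg_right _ (by positivity)
      linarith

end H54Waring
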