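import Pool.Agent.H54Waring.Final1
import Pool.Agent.H54Waring.T_GEO
import Pool.Agent.H54Waring.T_VDC
import Pool.Agent.H54Waring.T_V
import Pool.Agent.H54Waring.T_POLY
import Pool.Agent.H54Waring.T_WEYL
import Pool.Agent.H54Waring.T_CSA
import Pool.Agent.H54Waring.T_CS
import Pool.Agent.H54Waring.T_MAJ
import Pool.Agent.H54Waring.T_ANA
import Pool.Agent.H54Waring.T_DIV
import Pool.Agent.H54Waring.T_SIZE
import Pool.Agent.H54Waring.T_CMP
import Pool.Agent.H54Waring.T_SUP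
import Pool.Agent.H54Waring.T_L2
import Pool.Agent.H54Waring.T_LOCP
import Pool.Agent.H54Waring.T_LOC2
import Pool.Agent.H54Waring.T_LOC
import Pool.Agent.H54Waring.T_CORE
import Pool.Agent.H54Waring.T_DENS
import Pool.Agent.H54Waring.T_MAIN

set_option autoImplicit false

namespace H54Waring

theorem sWEYL : S_WEYL := t_WEYL t_GEO t_VDC t_V t_POLY
theorem sCS : S_CS := t_CS sWEYL t_CSA
theorem sANA : S_ANA := t_ANA_b sWEYL sCS t_MAJ
theorem sSUP : S_SUP := t_SUP t_GEO sANA t_DIV t_SIZE t_CMP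
theorem sLOC : S_LOC := t_LOC t_LOCP t_LOC2
theorem sCORE : S_CORE := t_CORE sSUP t_L2 sLOC t_DIV t_SIZE
theorem sDENS : S_DENS := t_DENS sCORE
theorem sMAIN : S_MAIN := t_MAIN sDENS

end H54Waring
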