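import Pool.Agent.H54Waring.Basic

set_option autoImplicit false

namespace H54Waring

open Finset

/-- sums of s k-th powers of nonnegative integers -/
def kSums (k s : ℕ) : Set ℕ := {n | ∃ x : Fin s → ℕ, n = ∑ i, x i ^ k}

/-- positive lower asymptotic density -/
def PosLowerDensity (A : Set ℕ) : Prop := ∃ δ : ℝ, 0 < δ ∧ ∃ N0 : ℕ, ∀ N : ℕ, N0 ≤ N →
  δ * N ≤ (Nat.card {n : ℕ // n < N ∧ n ∈ A} : ℝ)

/-- density one: the complement has o(N) elements below N -/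
def DensityOne (A : Set ℕ) : Prop := ∀ ε : ℝ, 0 < ε → ∃ N1 : ℕ, ∀ N : ℕ, N1 ≤ N →
  (Nat.card {n : ℕ // n < N ∧ n ∉ A} : ℝ) ≤ ε * N

/-- contains all large integers -/
def AllLarge (A : Set ℕ) : Prop := ∃ N1 : ℕ, ∀ n : ℕ, N1 ≤ n → n ∈ A

lemma kSums_add {k s t a b : ℕ} (ha : a ∈ kSums k s) (hb : b ∈ kSums k t) : a + b ∈ kSums k (s + t) := by
  obtain ⟨x, rfl⟩ := ha
  obtain ⟨y, rfl⟩ := hb
  refine ⟨Fin.append x y, ?_⟩
  rw [Fin.sum_univ_add]
  simp

lemma range_mem_kSums (k m : ℕ) (x : ℕ → ℕ) : ∑ i ∈ range m, x i ^ k ∈ kSums k m :=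
  ⟨fun i => x i, by rw [Finset.sum_range]⟩

lemma kSums_mono {k s t : ℕ} (hk : 1 ≤ k) (h : s ≤ t) : kSums k s ⊆ kSums k t := by
  obtain ⟨u, rfl⟩ := Nat.exists_eq_add_of_le h
  intro n hn
  have h0 : (0 : ℕ) ∈ kSums k u := ⟨fun _ => 0, by
    rw [Finset.sum_eq_zero]; intro i _; exact zero_pow (by omega)⟩
  simpa using kSums_add hn h0

theorem final_general (hD : S_DENS) (hM : S_MAIN) (k : ℕ) (hk : 2 ≤ k) (A : Set ℕ) (hA : PosLowerDensity A) :
    DensityOne {n | ∃ a ∈ A, ∃ b ∈ kSums k (4 * k), n = a + b} ∧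
    AllLarge {n | ∃ a ∈ A, ∃ a' ∈ A, ∃ b ∈ kSums k (4 * k), n = a + a' + b} := by
  obtain ⟨δ, hδ, N0, h0⟩ := hA
  have hLD : LD A δ := ⟨hδ, N0, h0⟩
  constructor
  · intro ε hε
    obtain ⟨N1, h1⟩ := hD k A δ hk hLD ε hε
    refine ⟨N1, fun N hN => le_trans ?_ (h1 N hN)⟩
    have : Nat.card {n : ℕ // n < N ∧ n ∉ {n | ∃ a ∈ A, ∃ b ∈ kSums k (4 * k), n = a + b}} ≤
        Nat.card {n : ℕ // n < N ∧ ¬ Rep k A n} := by
      have hfin : Finite {n : ℕ // n < N ∧ ¬ Rep k A n} :=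
        Finite.of_injective (fun n => (⟨n.1, n.2.1⟩ : Fin N)) (by
          intro a b h; simpa [Subtype.ext_iff] using h)
      refine Nat.card_le_card_of_injective
        (fun n => ⟨n.1, n.2.1, fun hr => n.2.2 ?_⟩) ?_
      · obtain ⟨a, ha, x, hx⟩ := hr
        exact ⟨a, ha, _, range_mem_kSums k (4 * k) x, hx⟩
      · intro a b h; simpa [Subtype.ext_iff] using h
    exact_mod_cast this
  · obtain ⟨N1, h1⟩ := hM k A δ hk hLD
    refine ⟨N1, fun n hn => ?_⟩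
    obtain ⟨a, ha, a', ha', x, hx⟩ := h1 n hn
    exact ⟨a, ha, a', ha', _, range_mem_kSums k (4 * k) x, hx⟩

theorem posLowerDensity_of_allLarge {A : Set ℕ} (h : AllLarge A) : PosLowerDensity A := by
  obtain ⟨N1, h1⟩ := h
  refine ⟨1 / 2, by norm_num, 2 * N1, fun N hN => ?_⟩
  have hfin : Finite {n : ℕ // n < N ∧ n ∈ A} :=
    Finite.of_injective (fun n => (⟨n.1, n.2.1⟩ : Fin N)) (by
      intro a b h; simpa [Subtype.ext_iff] using h)
  have : N - N1 ≤ Nat.card {n : ℕ // n < N ∧ n ∈ A} := by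
    have := Nat.card_le_card_of_injective (α := Fin (N - N1)) (β := {n : ℕ // n < N ∧ n ∈ A})
      (fun i => ⟨N1 + i.1, by omega, h1 _ (by omega)⟩) (by
        intro a b h
        have : N1 + a.1 = N1 + b.1 := by simpa [Subtype.ext_iff] using h
        exact Fin.ext (by omega))
    simpa using this
  have h2 : (N : ℝ) - N1 ≤ (Nat.card {n : ℕ // n < N ∧ n ∈ A} : ℝ) := by
    have h3 : ((N - N1 : ℕ) : ℝ) ≤ (Nat.card {n : ℕ // n < N ∧ n ∈ A} : ℝ) := by exact_mod_cast this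
    rw [Nat.cast_sub (by omega)] at h3
    exact h3
  have h4 : (2 * N1 : ℝ) ≤ N := by exact_mod_cast hN
  linarith

theorem final_waring (hD : S_DENS) (hM : S_MAIN) (k s : ℕ) (hk : 2 ≤ k)
    (hA : PosLowerDensity (kSums k s)) :
    DensityOne (kSums k (s + 4 * k)) ∧ AllLarge (kSums k (2 * s + 4 * k)) := by
  obtain ⟨h1, h2⟩ := final_general hD hM k hk (kSums k s) hA
  constructor
  · intro ε hε
    obtain ⟨N1, h3⟩ := h1 ε hε
    refine ⟨N1, fun N hN => le_trans ?_ (h3 N hN)⟩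
    have : Nat.card {n : ℕ // n < N ∧ n ∉ kSums k (s + 4 * k)} ≤
        Nat.card {n : ℕ // n < N ∧ n ∉ {n | ∃ a ∈ kSums k s, ∃ b ∈ kSums k (4 * k), n = a + b}} := by
      have hfin : Finite {n : ℕ // n < N ∧ n ∉ {n | ∃ a ∈ kSums k s, ∃ b ∈ kSums k (4 * k), n = a + b}} :=
        Finite.of_injective (fun n => (⟨n.1, n.2.1⟩ : Fin N)) (by
          intro a b h; simpa [Subtype.ext_iff] using h)
      refine Nat.card_le_card_of_injective
        (fun n => ⟨n.1, n.2.1, fun hr => n.2.2 ?_⟩) ?_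
      · obtain ⟨a, ha, b, hb, hab⟩ := hr
        rw [hab]; exact kSums_add ha hb
      · intro a b h; simpa [Subtype.ext_iff] using h
    exact_mod_cast this
  · obtain ⟨N1, h3⟩ := h2
    refine ⟨N1, fun n hn => ?_⟩
    obtain ⟨a, ha, a', ha', b, hb, hab⟩ := h3 n hn
    rw [hab, two_mul]
    exact kSums_add (kSums_add ha ha') hb

end H54Waring
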