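import Pool.Agent.H54Waring.Final0

set_option autoImplicit false

namespace H54Waring

theorem kSums_iff_atMost {k : ℕ} (hk : 1 ≤ k) : ∀ (s n : ℕ), n ∈ kSums k s ↔
    ∃ t, t ≤ s ∧ ∃ x : Fin t → ℕ, (∀ i, 0 < x i) ∧ n = ∑ i, x i ^ k := by
  intro s
  induction s with
  | zero =>
    intro n
    constructor
    · rintro ⟨x, rfl⟩
      exact ⟨0, le_rfl, Fin.elim0, fun i => i.elim0, by simp⟩
    · rintro ⟨t, ht, x, -, rfl⟩
      obtain rfl : t = 0 := by omega
      exact ⟨x, rfl⟩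
  | succ s ih =>
    intro n
    constructor
    · rintro ⟨x, rfl⟩
      rw [Fin.sum_univ_castSucc]
      obtain ⟨t, ht, y, hy, hyn⟩ := (ih (∑ i : Fin s, x i.castSucc ^ k)).1 ⟨fun i => x i.castSucc, rfl⟩
      rw [hyn]
      by_cases h0 : x (Fin.last s) = 0
      · exact ⟨t, by omega, y, hy, by rw [h0, zero_pow (by omega), add_zero]⟩
      · refine ⟨t + 1, by omega, Fin.snoc (α := fun _ => ℕ) y (x (Fin.last s)), ?_, ?_⟩
        · intro i
          refine Fin.lastCases ?_ (fun j => ?_) i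
          · simpa using Nat.pos_of_ne_zero h0
          · simpa using hy j
        · rw [Fin.sum_univ_castSucc]; simp
    · rintro ⟨t, ht, x, -, rfl⟩
      exact kSums_mono hk ht ⟨x, rfl⟩

/-- transfer: everything from S_DENS and S_MAIN -/
theorem final_equiv (hD : S_DENS) (hM : S_MAIN) :
    (∃ C : ℕ, ∀ k : ℕ, 2 ≤ k → AllLarge (kSums k (C * k))) ↔
    (∃ C : ℕ, ∀ k : ℕ, 2 ≤ k → PosLowerDensity (kSums k (C * k))) := by
  constructor
  · rintro ⟨C, h⟩; exact ⟨C, fun k hk => posLowerDensity_of_allLarge (h k hk)⟩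
  · rintro ⟨C, h⟩
    refine ⟨2 * C + 4, fun k hk => ?_⟩
    have := (final_waring hD hM k (C * k) hk (h k hk)).2
    have e : 2 * (C * k) + 4 * k = (2 * C + 4) * k := by ring
    rwa [e] at this

end H54Waring
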