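import Pool.Agent.H54Waring.P_CORE
import Pool.Agent.H54Waring.T_DENS

set_option autoImplicit false

namespace H54Waring

open Finset

theorem t_DENS_P : S_CORE_P → S_DENS_P := by
  classical
  intro hcore k A δ hk hLD ε hε
  obtain ⟨hδ, N0, hN0⟩ := hLD
  obtain ⟨η, hη⟩ : ∃ η : ℝ, η = ε / 4 := ⟨_, rfl⟩
  have hη0 : 0 < η := by rw [hη]; positivity
  obtain ⟨m, c0, N2, hm, hC⟩ := hcore k hk (δ * η * ε / 2) (by positivity)
  have hm0 : (0 : ℝ) < m := by exact_mod_cast hm
  refine ⟨max (max N2 1) (max (⌈(N0 : ℝ) / η⌉₊) (⌈4 * (1 + (c0 : ℝ)) / ε⌉₊)), fun N hN => ?_⟩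
  have h1 : N2 ≤ N := (le_max_left _ _).trans ((le_max_left _ _).trans hN)
  have h2 : 1 ≤ N := (le_max_right _ _).trans ((le_max_left _ _).trans hN)
  have h3 : (N0 : ℝ) ≤ η * N := by
    have h := Nat.ceil_le.1 ((le_max_left _ _).trans ((le_max_right _ _).trans hN))
    rwa [div_le_iff₀ hη0, mul_comm] at h
  have h4 : 1 + (c0 : ℝ) ≤ ε / 4 * N := by
    have h := Nat.ceil_le.1 ((le_max_right _ _).trans ((le_max_right _ _).trans hN))
    rw [div_le_iff₀ hε] at h
    linarith
  have hNR : (0 : ℝ) < N := by exact_mod_cast h2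
  obtain ⟨N', hN'⟩ : ∃ N' : ℕ, N' = ⌈η * (N : ℝ)⌉₊ := ⟨_, rfl⟩
  have h5 : η * N ≤ N' := by rw [hN']; exact Nat.le_ceil _
  have h6 : (N' : ℝ) ≤ η * N + 1 := by
    rw [hN']
    exact (Nat.ceil_lt_add_one (by positivity)).le
  have h7 : N0 ≤ N' := by
    have : (N0 : ℝ) ≤ N' := h3.trans h5
    exact_mod_cast this
  obtain ⟨A', hA'⟩ : ∃ A' : Finset ℕ, A' = (range N').filter (fun n => n ∈ A) := ⟨_, rfl⟩
  have h8 : δ * η * N ≤ A'.card := by
    have h := hN0 N' h7
    rw [dens_card N' (fun n => n ∈ A), ← hA'] at h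
    calc δ * η * N = δ * (η * N) := by ring
      _ ≤ δ * N' := mul_le_mul_of_nonneg_left h5 hδ.le
      _ ≤ A'.card := h
  obtain ⟨s, hs, hF⟩ := Finset.exists_le_card_fiber_of_nsmul_le_card_of_maps_to
    (s := A') (t := range m) (f := fun a => a % m) (b := (A'.card : ℝ) / m)
    (fun a _ => mem_range.2 (Nat.mod_lt _ (by omega))) ⟨0, mem_range.2 (by omega)⟩ (by
      rw [card_range, nsmul_eq_mul, mul_div_cancel₀ _ hm0.ne'])
  obtain ⟨F, hFdef⟩ : ∃ F : Finset ℕ, F = A'.filter (fun a => a % m = s) := ⟨_, rfl⟩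
  rw [← hFdef] at hF
  have h9 : δ * η * N / m ≤ F.card := (div_le_div_of_nonneg_right h8 hm0.le).trans hF
  have hE : ∀ r ∈ range m, ((((range N).filter (fun n => N' + c0 ≤ n ∧ ¬ RepP k A n)).filter
      (fun n => n % m = r)).card : ℝ) ≤ ε * N / (2 * m) := by
    intro r hr
    rw [mem_range] at hr hs
    have h := hC N h1 r s (((range N).filter (fun n => N' + c0 ≤ n ∧ ¬ RepP k A n)).filter
      (fun n => n % m = r)) F (by
        intro n hn
        rw [mem_filter, mem_filter, mem_range] at hn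
        exact ⟨by rw [hn.2, Nat.mod_eq_of_lt hr], hn.1.1⟩) (by
        intro a ha
        rw [hFdef, mem_filter] at ha
        rw [ha.2, Nat.mod_eq_of_lt hs]) (by
        intro n hn a ha
        rw [mem_filter, mem_filter, mem_range] at hn
        rw [hFdef, mem_filter, hA', mem_filter, mem_range] at ha
        refine ⟨by omega, fun ⟨x, hx⟩ => hn.1.2.2 ⟨a, ha.1.2, x, hx⟩⟩)
    obtain ⟨c, hc⟩ : ∃ c : ℝ, c = ((((range N).filter (fun n => N' + c0 ≤ n ∧
      ¬ RepP k A n)).filter (fun n => n % m = r)).card : ℝ) := ⟨_, rfl⟩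
    rw [← hc] at h ⊢
    have hc0 : 0 ≤ c := by rw [hc]; exact Nat.cast_nonneg _
    have h10 : c * (δ * η * N / m) ≤ δ * η * ε / 2 * ((N : ℝ) / m) ^ 2 :=
      (mul_le_mul_of_nonneg_left h9 hc0).trans h
    have h11 : δ * η * ε / 2 * ((N : ℝ) / m) ^ 2 = (ε * N / (2 * m)) * (δ * η * N / m) := by
      field_simp
    rw [h11] at h10
    exact le_of_mul_le_mul_right h10 (by positivity)
  have hsum : (((range N).filter (fun n => N' + c0 ≤ n ∧ ¬ RepP k A n)).card : ℝ) ≤
      ε / 2 * N := by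
    have h := Finset.card_eq_sum_card_fiberwise
      (s := (range N).filter (fun n => N' + c0 ≤ n ∧ ¬ RepP k A n)) (t := range m)
      (f := fun n => n % m) (fun a _ => by
        rw [Finset.mem_coe]
        exact mem_range.2 (Nat.mod_lt _ (by omega)))
    rw [h, Nat.cast_sum]
    refine (sum_le_sum hE).trans (le_of_eq ?_)
    rw [sum_const, card_range, nsmul_eq_mul]
    field_simp
  rw [dens_card N (fun n => ¬ RepP k A n)]
  have hsub : (range N).filter (fun n => ¬ RepP k A n) ⊆ range (N' + c0) ∪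
      (range N).filter (fun n => N' + c0 ≤ n ∧ ¬ RepP k A n) := by
    intro n hn
    rw [mem_filter] at hn
    rw [mem_union, mem_filter, mem_range]
    rcases Nat.lt_or_ge n (N' + c0) with h | h
    · exact Or.inl h
    · exact Or.inr ⟨hn.1, h, hn.2⟩
  have hcard : (((range N).filter (fun n => ¬ RepP k A n)).card : ℝ) ≤
      (N' + c0 : ℝ) + (((range N).filter (fun n => N' + c0 ≤ n ∧ ¬ RepP k A n)).card : ℝ) := by
    have h := (card_le_card hsub).trans (card_union_le _ _)
    rw [card_range] at h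
    exact_mod_cast h
  have h12 : η * N = ε / 4 * N := by rw [hη]
  linarith

end H54Waring
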