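import Pool.Agent.H54Waring.P_CORE

set_option autoImplicit false

/-! MAIN: two copies of `A` (assume DENS). -/

namespace H54Waring

open Finset

theorem t_MAIN_P : S_DENS_P → S_MAIN_P := by
  intro hD k A δ hk hA
  obtain ⟨hδ, N0, hN0⟩ := hA
  obtain ⟨N1, hN1⟩ := hD k A δ hk ⟨hδ, N0, hN0⟩ (δ / 2) (by positivity)
  refine ⟨max N0 N1, fun n hn => ?_⟩
  have h0 : N0 ≤ n + 1 := (le_max_left N0 N1).trans (hn.trans (Nat.le_succ n))
  have h1 : N1 ≤ n + 1 := (le_max_right N0 N1).trans (hn.trans (Nat.le_succ n))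
  have e0 := hN0 (n + 1) h0
  have e1 := hN1 (n + 1) h1
  by_cases hex : ∃ a : ℕ, a ≤ n ∧ a ∈ A ∧ RepP k A (n - a)
  · obtain ⟨a, han, haA, a', ha', x, hxp, hx⟩ := hex
    exact ⟨a, haA, a', ha', x, hxp, by omega⟩
  · exfalso
    have hex' : ∀ a : ℕ, a ≤ n → a ∈ A → ¬ RepP k A (n - a) := by
      intro a h2 h3 h4
      exact hex ⟨a, h2, h3, h4⟩
    let f : {m : ℕ // m < n + 1 ∧ m ∈ A} → {m : ℕ // m < n + 1 ∧ ¬ RepP k A m} := fun a =>
      ⟨n - a.1, Nat.lt_succ_of_le (Nat.sub_le n a.1),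
        hex' a.1 (Nat.le_of_lt_succ a.2.1) a.2.2⟩
    have hf : Function.Injective f := by
      intro a b hab
      have h2 : n - a.1 = n - b.1 := congrArg Subtype.val hab
      have h3 := a.2.1
      have h4 := b.2.1
      apply Subtype.ext
      omega
    have hfin : Finite {m : ℕ // m < n + 1 ∧ ¬ RepP k A m} :=
      Set.Finite.to_subtype ((Set.finite_Iio (n + 1)).subset fun m hm => hm.1)
    have hc := Nat.card_le_card_of_injective f hf
    have hc' : (Nat.card {m : ℕ // m < n + 1 ∧ m ∈ A} : ℝ) ≤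
        (Nat.card {m : ℕ // m < n + 1 ∧ ¬ RepP k A m} : ℝ) := by exact_mod_cast hc
    have h5 : δ * ((n + 1 : ℕ) : ℝ) ≤ δ / 2 * ((n + 1 : ℕ) : ℝ) := e0.trans (hc'.trans e1)
    have h6 : (0 : ℝ) < ((n + 1 : ℕ) : ℝ) := by positivity
    have h7 : 0 < δ * ((n + 1 : ℕ) : ℝ) := mul_pos hδ h6
    nlinarith

end H54Waring
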