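import Pool.Agent.H54Waring.Final
import Pool.Agent.H54Waring.P_CORE
import Pool.Agent.H54Waring.P_DENS
import Pool.Agent.H54Waring.P_MAIN

set_option autoImplicit false

namespace H54Waring

open Finset

/-- sums of exactly s k-th powers of positive integers -/
def posSums (k s : ℕ) : Set ℕ := {n | ∃ x : Fin s → ℕ, (∀ i, 0 < x i) ∧ n = ∑ i, x i ^ k}

lemma posSums_add {k s t a b : ℕ} (ha : a ∈ posSums k s) (hb : b ∈ posSums k t) :
    a + b ∈ posSums k (s + t) := by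
  obtain ⟨x, hx, rfl⟩ := ha
  obtain ⟨y, hy, rfl⟩ := hb
  refine ⟨Fin.append x y, ?_, ?_⟩
  · intro i
    refine Fin.addCases (fun j => ?_) (fun j => ?_) i
    · rw [Fin.append_left]; exact hx j
    · rw [Fin.append_right]; exact hy j
  · rw [Fin.sum_univ_add]
    simp

lemma range_mem_posSums (k m : ℕ) (x : ℕ → ℕ) (hx : ∀ i, 0 < x i) :
    ∑ i ∈ range m, x i ^ k ∈ posSums k m :=
  ⟨fun i => x i, fun i => hx _, by rw [Finset.sum_range]⟩

theorem sCORE_P : S_CORE_P := t_CORE_P sSUP t_L2 sLOC t_DIV t_SIZE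
theorem sDENS_P : S_DENS_P := t_DENS_P sCORE_P
theorem sMAIN_P : S_MAIN_P := t_MAIN_P sDENS_P

theorem final_general_P (k : ℕ) (hk : 2 ≤ k) (A : Set ℕ) (hA : PosLowerDensity A) :
    DensityOne {n | ∃ a ∈ A, ∃ b ∈ posSums k (4 * k), n = a + b} ∧
    AllLarge {n | ∃ a ∈ A, ∃ a' ∈ A, ∃ b ∈ posSums k (4 * k), n = a + a' + b} := by
  obtain ⟨δ, hδ, N0, h0⟩ := hA
  have hLD : LD A δ := ⟨hδ, N0, h0⟩
  constructor
  · intro ε hε
    obtain ⟨N1, h1⟩ := sDENS_P k A δ hk hLD ε hε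
    refine ⟨N1, fun N hN => le_trans ?_ (h1 N hN)⟩
    have : Nat.card {n : ℕ // n < N ∧ n ∉ {n | ∃ a ∈ A, ∃ b ∈ posSums k (4 * k), n = a + b}} ≤
        Nat.card {n : ℕ // n < N ∧ ¬ RepP k A n} := by
      have hfin : Finite {n : ℕ // n < N ∧ ¬ RepP k A n} :=
        Finite.of_injective (fun n => (⟨n.1, n.2.1⟩ : Fin N)) (by
          intro a b h; simpa [Subtype.ext_iff] using h)
      refine Nat.card_le_card_of_injective
        (fun n => ⟨n.1, n.2.1, fun hr => n.2.2 ?_⟩) ?_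
      · obtain ⟨a, ha, x, hxp, hx⟩ := hr
        exact ⟨a, ha, _, range_mem_posSums k (4 * k) x hxp, hx⟩
      · intro a b h; simpa [Subtype.ext_iff] using h
    exact_mod_cast this
  · obtain ⟨N1, h1⟩ := sMAIN_P k A δ hk hLD
    refine ⟨N1, fun n hn => ?_⟩
    obtain ⟨a, ha, a', ha', x, hxp, hx⟩ := h1 n hn
    exact ⟨a, ha, a', ha', _, range_mem_posSums k (4 * k) x hxp, hx⟩

theorem final_waring_P (k s : ℕ) (hk : 2 ≤ k) (hA : PosLowerDensity (posSums k s)) :
    DensityOne (posSums k (s + 4 * k)) ∧ AllLarge (posSums k (2 * s + 4 * k)) := by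
  obtain ⟨h1, h2⟩ := final_general_P k hk (posSums k s) hA
  constructor
  · intro ε hε
    obtain ⟨N1, h3⟩ := h1 ε hε
    refine ⟨N1, fun N hN => le_trans ?_ (h3 N hN)⟩
    have : Nat.card {n : ℕ // n < N ∧ n ∉ posSums k (s + 4 * k)} ≤
        Nat.card {n : ℕ // n < N ∧ n ∉ {n | ∃ a ∈ posSums k s, ∃ b ∈ posSums k (4 * k), n = a + b}} := by
      have hfin : Finite {n : ℕ // n < N ∧ n ∉ {n | ∃ a ∈ posSums k s, ∃ b ∈ posSums k (4 * k), n = a + b}} :=
        Finite.of_injective (fun n => (⟨n.1, n.2.1⟩ : Fin N)) (by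
          intro a b h; simpa [Subtype.ext_iff] using h)
      refine Nat.card_le_card_of_injective
        (fun n => ⟨n.1, n.2.1, fun hr => n.2.2 ?_⟩) ?_
      · obtain ⟨a, ha, b, hb, hab⟩ := hr
        rw [hab]; exact posSums_add ha hb
      · intro a b h; simpa [Subtype.ext_iff] using h
    exact_mod_cast this
  · obtain ⟨N1, h3⟩ := h2
    refine ⟨N1, fun n hn => ?_⟩
    obtain ⟨a, ha, a', ha', b, hb, hab⟩ := h3 n hn
    rw [hab, two_mul]
    exact posSums_add (posSums_add ha ha') hb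

end H54Waring
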